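import Mathlib
import Pool.Graph.R_seed8.W245.PB.Inf
import Pool.Graph.R_seed8.W245.PB.PSmall
import Pool.Graph.R_seed8.W245.Small
import Pool.Graph.R_seed8.Y921.SR.Pencil

/-!
# The spaces of complex and of `p`-adic logarithms of algebraic numbers
-/

set_option autoImplicit false

namespace Pool.Agent.Helper71.MLog

open Finset Module Matrix Pool.Agent.W245 Pool.Agent.W245.PB Pool.Agent.H297R2 Pool.Agent.Y921.SR

/-- the conversion of the two forms of the zero coefficient property -/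
theorem zeroProp_iff {C : Type*} [Field C] [CharZero C] (V : Submodule ℚ C) :
    ZeroProp V ↔ SingularHasZero V := by
  have key : ∀ (n : ℕ) (M : Matrix (Fin n) (Fin n) C) (w v : Fin n → ℚ),
      ∑ i, ∑ j, (w i * v j) • M i j = ∑ i, ∑ j, (w i : C) * M i j * (v j : C) := by
    intro n M w v
    refine Finset.sum_congr rfl fun i _ => Finset.sum_congr rfl fun j _ => ?_
    rw [Rat.smul_def]
    push_cast
    ring
  constructor
  · intro h n hn M hM hdet
    obtain ⟨w, v, hw, hv, h0⟩ := h n hn M hM hdet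
    exact ⟨w, v, hw, hv, by rw [← key]; exact h0⟩
  · intro h n hn M hM hdet
    obtain ⟨w, v, hw, hv, h0⟩ := h n hn M hM hdet
    exact ⟨w, v, hw, hv, by rw [key]; exact h0⟩

/-! ### Complex logarithms -/

theorem isAlg_rpow {z : ℂ} (hz : IsAlgebraic ℚ (Complex.exp z)) (q : ℚ) :
    IsAlgebraic ℚ (Complex.exp (q • z)) := by
  have hd : (q.den : ℂ) ≠ 0 := Nat.cast_ne_zero.2 q.den_ne_zero
  have h1 : Complex.exp (q • z) ^ q.den = Complex.exp z ^ q.num := by
    rw [← Complex.exp_nat_mul, ← Complex.exp_int_mul]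
    congr 1
    rw [Rat.smul_def]
    have h2 : (q : ℂ) = q.num / q.den := by
      exact_mod_cast congrArg (fun x : ℚ => (x : ℂ)) (Rat.num_div_den q).symm
    rw [h2]
    field_simp
  have h3 : IsAlgebraic ℚ (Complex.exp (q • z) ^ q.den) := by
    rw [h1]
    rcases Int.eq_nat_or_neg q.num with ⟨n, h | h⟩
    · rw [h, zpow_natCast]
      exact hz.pow n
    · rw [h, _root_.zpow_neg, zpow_natCast]
      exact (hz.pow n).inv
  exact IsAlgebraic.of_pow q.den_pos h3

theorem mem_span_logs (z : ℂ) :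
    z ∈ Submodule.span ℚ {z : ℂ | IsAlgebraic ℚ (Complex.exp z)} ↔ IsAlgebraic ℚ (Complex.exp z) := by
  constructor
  · intro hz
    refine Submodule.span_induction (p := fun z _ => IsAlgebraic ℚ (Complex.exp z)) ?_ ?_ ?_ ?_ hz
    · intro x hx
      exact hx
    · rw [Complex.exp_zero]
      exact isAlgebraic_one
    · intro x y _ _ hx hy
      rw [Complex.exp_add]
      exact hx.mul hy
    · intro q x _ hx
      exact isAlg_rpow hx q
  · intro hz
    exact Submodule.subset_span hz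

theorem not_finite_logs :
    ¬ Module.Finite ℚ (Submodule.span ℚ {z : ℂ | IsAlgebraic ℚ (Complex.exp z)}) := by
  intro hfin
  set S := Submodule.span ℚ {z : ℂ | IsAlgebraic ℚ (Complex.exp z)} with hS
  set r := finrank ℚ S + 1 with hr
  have hli := linearIndependent_log_prime (fun i : Fin r => Nat.nth Nat.Prime i)
    (fun i => Nat.prime_nth_prime i)
    (fun i j hij => Fin.ext (Nat.nth_injective Nat.infinite_setOfPred_prime hij))
  have hmem : ∀ i : Fin r, ((Real.log (Nat.nth Nat.Prime i) : ℝ) : ℂ) ∈ S := by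
    intro i
    apply Submodule.subset_span
    show IsAlgebraic ℚ (Complex.exp _)
    rw [← Complex.ofReal_exp, Real.exp_log (by exact_mod_cast (Nat.prime_nth_prime i).pos),
      Complex.ofReal_natCast]
    exact isAlgebraic_natCast _
  have h1 : LinearIndependent ℚ (fun i : Fin r => (⟨_, hmem i⟩ : S)) :=
    LinearIndependent.of_comp S.subtype hli
  have h2 := h1.fintype_card_le_finrank
  rw [Fintype.card_fin] at h2
  omega

theorem countable_logs :
    ((Submodule.span ℚ {z : ℂ | IsAlgebraic ℚ (Complex.exp z)} : Submodule ℚ ℂ) : Set ℂ).Countable := by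
  have h1 : ((Submodule.span ℚ {z : ℂ | IsAlgebraic ℚ (Complex.exp z)} : Submodule ℚ ℂ) : Set ℂ) =
      Complex.exp ⁻¹' {x : ℂ | IsAlgebraic ℚ x} := by
    ext z
    exact mem_span_logs z
  rw [h1]
  exact (Algebraic.countable ℚ ℂ).preimage_cexp

theorem bakerProp_logs (Λ : Submodule ℚ ℂ)
    (hΛ : Λ ≤ Submodule.span ℚ {z : ℂ | IsAlgebraic ℚ (Complex.exp z)}) :
    BakerProp (algebraicClosure ℚ ℂ) Λ := by
  intro r w hw hli
  rw [Fintype.linearIndependent_iff]
  intro c hc i
  have h4 := baker w (fun i => (mem_span_logs _).1 (hΛ (hw i))) hli (fun i => (c i : ℂ))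
    (fun i => (mem_algebraicClosure_iff).1 (c i).2) (by
      rw [← hc]
      apply Finset.sum_congr rfl
      intro i _
      rw [Algebra.smul_def]
      rfl) i
  exact_mod_cast h4

/-! ### `p`-adic logarithms -/

section Padic

variable {p : ℕ} [hp : Fact p.Prime] {L : PadicAlgCl p → PadicAlgCl p}

theorem padic_smul (hL : IsIwasawaLog p L) {α : PadicAlgCl p} (h0 : α ≠ 0) (hα : IsAlgebraic ℚ α)
    (q : ℚ) : ∃ β : PadicAlgCl p, β ≠ 0 ∧ IsAlgebraic ℚ β ∧ q • L α = L β := by
  obtain ⟨β, hβ⟩ := IsAlgClosed.exists_pow_nat_eq (α ^ q.num) q.den_pos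
  have hαz : α ^ q.num ≠ 0 := zpow_ne_zero _ h0
  have hβ0 : β ≠ 0 := by
    rintro rfl
    rw [zero_pow q.den_ne_zero] at hβ
    exact hαz hβ.symm
  have hd : (q.den : PadicAlgCl p) ≠ 0 := Nat.cast_ne_zero.2 q.den_ne_zero
  refine ⟨β, hβ0, ?_, ?_⟩
  · apply IsAlgebraic.of_pow q.den_pos
    rw [hβ]
    rcases Int.eq_nat_or_neg q.num with ⟨n, h | h⟩
    · rw [h, zpow_natCast]
      exact hα.pow n
    · rw [h, _root_.zpow_neg, zpow_natCast]
      exact (hα.pow n).inv
  · have h1 : (q.den : PadicAlgCl p) * L β = (q.num : PadicAlgCl p) * L α := by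
      rw [← hL.pow hβ0, ← hL.zpow h0, hβ]
    have h2 : (q : PadicAlgCl p) = q.num / q.den := by
      exact_mod_cast congrArg (fun x : ℚ => (x : PadicAlgCl p)) (Rat.num_div_den q).symm
    rw [Rat.smul_def, h2, div_mul_eq_mul_div, ← h1, mul_div_assoc, mul_comm, div_mul_cancel₀ _ hd]

theorem mem_span_padicLogs (hL : IsIwasawaLog p L) (x : PadicAlgCl p) :
    x ∈ Submodule.span ℚ {x : PadicAlgCl p | ∃ α : PadicAlgCl p, α ≠ 0 ∧ IsAlgebraic ℚ α ∧ x = L α} ↔
      ∃ α : PadicAlgCl p, α ≠ 0 ∧ IsAlgebraic ℚ α ∧ x = L α := by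
  constructor
  · intro hx
    refine Submodule.span_induction
      (p := fun x _ => ∃ α : PadicAlgCl p, α ≠ 0 ∧ IsAlgebraic ℚ α ∧ x = L α) ?_ ?_ ?_ ?_ hx
    · intro x hx
      exact hx
    · refine ⟨1, one_ne_zero, isAlgebraic_one, ?_⟩
      have := hL.mul 1 1 one_ne_zero one_ne_zero
      rw [mul_one] at this
      exact (left_eq_add.1 this).symm
    · rintro x y _ _ ⟨a, ha0, ha, rfl⟩ ⟨b, hb0, hb, rfl⟩
      exact ⟨a * b, mul_ne_zero ha0 hb0, ha.mul hb, (hL.mul a b ha0 hb0).symm⟩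
    · rintro q x _ ⟨a, ha0, ha, rfl⟩
      exact padic_smul hL ha0 ha q
  · intro hx
    exact Submodule.subset_span hx

theorem not_finite_padicLogs (hL : IsIwasawaLog p L) :
    ¬ Module.Finite ℚ (Submodule.span ℚ
      {x : PadicAlgCl p | ∃ α : PadicAlgCl p, α ≠ 0 ∧ IsAlgebraic ℚ α ∧ x = L α}) := by
  intro hfin
  set S := Submodule.span ℚ
    {x : PadicAlgCl p | ∃ α : PadicAlgCl p, α ≠ 0 ∧ IsAlgebraic ℚ α ∧ x = L α} with hS
  set r := finrank ℚ S + 1 with hr
  have hli := hL.quot_indep (fun i : Fin r => Nat.nth Nat.Prime (2 * i))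
    (fun i : Fin r => Nat.nth Nat.Prime (2 * i + 1))
    (fun i => Nat.prime_nth_prime _) (fun i => Nat.prime_nth_prime _) (by
      have hinj := Nat.nth_injective Nat.infinite_setOfPred_prime
      rintro (i | i) (j | j) h
      · have h1 : 2 * (i : ℕ) = 2 * j := hinj (by simpa using h)
        exact congrArg Sum.inl (Fin.ext (by omega))
      · have h1 : 2 * (i : ℕ) = 2 * j + 1 := hinj (by simpa using h)
        omega
      · have h1 : 2 * (i : ℕ) + 1 = 2 * j := hinj (by simpa using h)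
        omega
      · have h1 : 2 * (i : ℕ) + 1 = 2 * j + 1 := hinj (by simpa using h)
        exact congrArg Sum.inr (Fin.ext (by omega)))
  have hmem : ∀ i : Fin r, L ((Nat.nth Nat.Prime (2 * i + 1) : PadicAlgCl p) /
      (Nat.nth Nat.Prime (2 * i) : PadicAlgCl p)) ∈ S := by
    intro i
    apply Submodule.subset_span
    refine ⟨_, div_ne_zero (Nat.cast_ne_zero.2 (Nat.prime_nth_prime _).ne_zero)
      (Nat.cast_ne_zero.2 (Nat.prime_nth_prime _).ne_zero), ?_, rfl⟩
    rw [div_eq_mul_inv]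
    exact (isAlgebraic_natCast _).mul (isAlgebraic_natCast _).inv
  have h1 : LinearIndependent ℚ (fun i : Fin r => (⟨_, hmem i⟩ : S)) :=
    LinearIndependent.of_comp S.subtype hli
  have h2 := h1.fintype_card_le_finrank
  rw [Fintype.card_fin] at h2
  omega

theorem countable_padicLogs (hL : IsIwasawaLog p L) :
    ((Submodule.span ℚ {x : PadicAlgCl p | ∃ α : PadicAlgCl p, α ≠ 0 ∧ IsAlgebraic ℚ α ∧ x = L α} :
      Submodule ℚ (PadicAlgCl p)) : Set (PadicAlgCl p)).Countable := by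
  refine Set.Countable.mono ?_ ((Algebraic.countable ℚ (PadicAlgCl p)).image L)
  intro x hx
  obtain ⟨α, -, h1, h2⟩ := (mem_span_padicLogs hL x).1 hx
  exact ⟨α, h1, h2.symm⟩

theorem bakerProp_padicLogs (hL : IsIwasawaLog p L) (Λ : Submodule ℚ (PadicAlgCl p))
    (hΛ : Λ ≤ Submodule.span ℚ
      {x : PadicAlgCl p | ∃ α : PadicAlgCl p, α ≠ 0 ∧ IsAlgebraic ℚ α ∧ x = L α}) :
    BakerProp (QbarP p) Λ := fun _ w hw hli =>
  hL.indep_of_indep w (fun i => (mem_span_padicLogs hL _).1 (hΛ (hw i))) hli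

end Padic

end Pool.Agent.Helper71.MLog
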