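import Mathlib
import Pool.Graph.R_seed8.Y787.AS.Germ

/-!
# Generic sequences, germs, and the transcendence degree
-/

set_option autoImplicit false

namespace Pool.Agent.Helper71.MLog

open Finset Module Filter
open Pool.Agent.Y787.AS (GE ge ge_eq ge_eq_zero)

/-- a sequence of rational points which leaves every proper algebraic subset -/
theorem exists_generic (ι : Type) [Finite ι] : ∃ z : ℕ → ι → ℚ,
    ∀ Ψ : MvPolynomial ι ℚ, Ψ ≠ 0 → ∀ᶠ j in Filter.atTop, MvPolynomial.eval (z j) Ψ ≠ 0 := by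
  classical
  have hcount : Countable (MvPolynomial ι ℚ) := by
    rw [← Cardinal.mk_le_aleph0_iff]
    refine (MvPolynomial.cardinalMk_le_max).trans ?_
    simp
  obtain ⟨f, hf⟩ := exists_surjective_nat (MvPolynomial ι ℚ)
  have h : ∀ j : ℕ, ∃ z : ι → ℚ,
      MvPolynomial.eval z (∏ i ∈ range (j + 1), if f i = 0 then 1 else f i) ≠ 0 := by
    intro j
    by_contra hcon
    push Not at hcon
    have h1 : (∏ i ∈ range (j + 1), if f i = 0 then 1 else f i) = 0 :=
      MvPolynomial.funext fun x => by rw [hcon x, map_zero]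
    rw [Finset.prod_eq_zero_iff] at h1
    obtain ⟨i, -, hi⟩ := h1
    split_ifs at hi with h0
    · exact one_ne_zero hi
    · exact h0 hi
  choose z hz using h
  refine ⟨z, fun Ψ hΨ => ?_⟩
  obtain ⟨i, rfl⟩ := hf Ψ
  filter_upwards [Filter.eventually_ge_atTop i] with j hj
  have h1 := hz j
  rw [map_prod, Finset.prod_ne_zero_iff] at h1
  have h2 := h1 i (Finset.mem_range.2 (by omega))
  rwa [if_neg hΨ] at h2

/-- pigeonhole principle for ultrafilters -/
theorem ultra_pigeon {α T : Type} [Finite T] (𝒰 : Ultrafilter α) (p : T → α → Prop)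
    (h : ∀ᶠ j in (𝒰 : Filter α), ∃ t, p t j) : ∃ t, ∀ᶠ j in (𝒰 : Filter α), p t j := by
  by_contra hcon
  push Not at hcon
  have h1 : ∀ᶠ j in (𝒰 : Filter α), ∀ t, ¬ p t j := by
    rw [Filter.eventually_all]
    intro t
    exact hcon t
  obtain ⟨j, ⟨t, ht⟩, h2⟩ := (h.and h1).exists
  exact h2 t ht

/-- the transcendence degree of a field generated by two families -/
theorem trdeg_bound {K : Type} [Field K] [Algebra ℚ K] (S T Z : Set K) (d e : ℕ)
    (hS : ∀ s : Fin (d + 1) → K, (∀ i, s i ∈ S) → ¬ AlgebraicIndependent ℚ s)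
    (hT : T.encard ≤ e) (hZ : AlgebraicIndepOn ℚ id Z)
    (hZS : ∀ z ∈ Z, IsAlgebraic (Algebra.adjoin ℚ (S ∪ T)) z) : Z.encard ≤ (d + e : ℕ) := by
  classical
  set M := AlgebraicIndependent.matroid ℚ K with hM
  have hZi : M.Indep Z := AlgebraicIndependent.matroid_indep_iff.2 hZ
  have h1 : Z ⊆ M.closure (S ∪ T) := by
    intro z hz
    rw [hM, AlgebraicIndependent.matroid_closure_eq]
    exact hZS z hz
  have h2 : Z.encard ≤ M.eRk (S ∪ T) := by
    rw [← M.eRk_closure_eq]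
    exact hZi.encard_le_eRk_of_subset h1
  have h3 : M.eRk S ≤ d := by
    rw [Matroid.eRk_le_iff]
    intro I hIS hI
    by_contra hcon
    push Not at hcon
    have h4 : ((d + 1 : ℕ) : ℕ∞) ≤ I.encard := by
      have := Order.add_one_le_of_lt hcon
      exact_mod_cast this
    obtain ⟨J, hJI, hJ⟩ := Set.exists_subset_encard_eq h4
    have hJfin : J.Finite := Set.finite_of_encard_eq_coe hJ
    have hJc : J.ncard = d + 1 := by
      rw [Set.ncard_def, hJ]
      rfl
    have hft : Finite J := hJfin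
    have hcard : Nat.card J = d + 1 := hJc
    let e : Fin (d + 1) ≃ J := (Finite.equivFinOfCardEq hcard).symm
    refine hS (fun i => (e i : K)) (fun i => hIS (hJI (e i).2)) ?_
    have h5 : AlgebraicIndepOn ℚ id J := AlgebraicIndependent.matroid_indep_iff.1 (hI.subset hJI)
    exact AlgebraicIndependent.comp h5 e e.injective
  have h4 : M.eRk T ≤ e := (M.eRk_le_encard T).trans hT
  calc Z.encard ≤ M.eRk (S ∪ T) := h2
    _ ≤ M.eRk S + M.eRk T := M.eRk_union_le_eRk_add_eRk S T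
    _ ≤ d + e := add_le_add h3 h4
    _ = (d + e : ℕ) := by push_cast; rfl

theorem aeval_germ {ι : Type} (𝒰 : Ultrafilter ℕ) [Algebra ℚ (GE 𝒰 ℚ)] (z : ℕ → ι → ℚ)
    (Ψ : MvPolynomial ι ℚ) : MvPolynomial.aeval (fun i => ge 𝒰 ℚ (fun j => z j i)) Ψ =
      ge 𝒰 ℚ (fun j => MvPolynomial.eval (z j) Ψ) := by
  have h : (MvPolynomial.aeval (R := ℚ) (fun i => ge 𝒰 ℚ (fun j => z j i))).toRingHom =
      (ge 𝒰 ℚ).comp (RingHom.pi fun j => MvPolynomial.eval (z j)) := by
    apply MvPolynomial.ringHom_ext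
    · intro r
      simp only [AlgHom.toRingHom_eq_coe, RingHom.coe_coe, MvPolynomial.aeval_C, RingHom.comp_apply]
      have h1 : algebraMap ℚ (GE 𝒰 ℚ) = (ge 𝒰 ℚ).comp (Pi.constRingHom ℕ ℚ) :=
        RingHom.ext_rat _ _
      rw [h1, RingHom.comp_apply]
      congr 1
      funext j
      exact (MvPolynomial.eval_C r).symm
    · intro i
      simp only [AlgHom.toRingHom_eq_coe, RingHom.coe_coe, MvPolynomial.aeval_X, RingHom.comp_apply]
      congr 1
      funext j
      exact (MvPolynomial.eval_X i).symm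
  exact congrArg (fun f => f Ψ) h

/-- germs of a generic sequence are algebraically independent -/
theorem germ_indep {ι : Type} (𝒰 : Ultrafilter ℕ) (h𝒰 : (𝒰 : Filter ℕ) ≤ atTop)
    [Algebra ℚ (GE 𝒰 ℚ)] (z : ℕ → ι → ℚ)
    (hz : ∀ Ψ : MvPolynomial ι ℚ, Ψ ≠ 0 → ∀ᶠ j in Filter.atTop, MvPolynomial.eval (z j) Ψ ≠ 0) :
    AlgebraicIndependent ℚ (fun i => ge 𝒰 ℚ (fun j => z j i)) := by
  rw [algebraicIndependent_iff]
  intro Ψ hΨ
  by_contra hne
  have h1 := (hz Ψ hne).filter_mono h𝒰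
  rw [aeval_germ, ge_eq_zero] at hΨ
  obtain ⟨j, h3, h4⟩ := (h1.and hΨ).exists
  exact h3 h4

/-- a polynomial relation of germs -/
theorem germ_dep {ι : Type} (𝒰 : Ultrafilter ℕ) [Algebra ℚ (GE 𝒰 ℚ)] (z : ℕ → ι → ℚ)
    (Ψ : MvPolynomial ι ℚ) (hΨ : Ψ ≠ 0)
    (h : ∀ᶠ j in (𝒰 : Filter ℕ), MvPolynomial.eval (z j) Ψ = 0) :
    ¬ AlgebraicIndependent ℚ (fun i => ge 𝒰 ℚ (fun j => z j i)) := by
  intro hi
  rw [algebraicIndependent_iff] at hi
  apply hΨ
  apply hi
  rw [aeval_germ, ge_eq_zero]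
  exact h

end Pool.Agent.Helper71.MLog
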