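import Mathlib
import Pool.Graph.R_seed8.W245.PB.Inf
import Pool.Graph.R_seed8.Y921.SR.Pencil

/-!
# Splitting an infinite dimensional space into spaces with the zero coefficient property

One step of the construction: an arbitrary element of `Λ` is written as the sum of `m + 1` elements, of which
any `m` satisfy no polynomial relation of bounded degree over the given finite dimensional space.
-/

set_option autoImplicit false

namespace Pool.Agent.Helper71.MLog

open Finset Module Matrix Pool.Agent.W245 Pool.Agent.W245.PB Pool.Agent.H297R2 Pool.Agent.Y921.SR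

section Coef

variable {κ C τ : Type*} [Field κ] [Field C] [Algebra κ C]

/-- the coefficients are in a power of `E`, the total degree is bounded -/
def CoefMv (E : Submodule κ C) (k : ℕ) (f : MvPolynomial τ C) : Prop :=
  (∀ s, f.coeff s ∈ E ^ k) ∧ f.totalDegree ≤ k

theorem CoefMv.mul {E : Submodule κ C} {k l : ℕ} {f g : MvPolynomial τ C} (hf : CoefMv E k f)
    (hg : CoefMv E l g) : CoefMv E (k + l) (f * g) := by
  classical
  refine ⟨fun s => ?_, (MvPolynomial.totalDegree_mul f g).trans (Nat.add_le_add hf.2 hg.2)⟩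
  rw [MvPolynomial.coeff_mul, pow_add]
  exact Submodule.sum_mem _ fun p _ => Submodule.mul_mem_mul (hf.1 _) (hg.1 _)

theorem CoefMv.prod {E : Submodule κ C} {ι : Type*} (s : Finset ι) (f : ι → MvPolynomial τ C)
    (hf : ∀ i ∈ s, CoefMv E 1 (f i)) : CoefMv E s.card (∏ i ∈ s, f i) := by
  classical
  induction s using Finset.induction_on with
  | empty =>
    refine ⟨fun t => ?_, by simp⟩
    rw [Finset.card_empty, Finset.prod_empty, pow_zero, MvPolynomial.coeff_one]
    split_ifs
    · exact Submodule.one_le.1 le_rfl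
    · exact Submodule.zero_mem _
  | insert a s ha ih =>
    rw [Finset.card_insert_of_notMem ha, Finset.prod_insert ha, add_comm]
    exact (hf a (Finset.mem_insert_self _ _)).mul
      (ih (fun i hi => hf i (Finset.mem_insert_of_mem hi)))

theorem CoefMv.sum {E : Submodule κ C} {ι : Type*} (s : Finset ι) (k : ℕ) (f : ι → MvPolynomial τ C)
    (hf : ∀ i ∈ s, CoefMv E k (f i)) : CoefMv E k (∑ i ∈ s, f i) := by
  refine ⟨fun t => ?_, MvPolynomial.totalDegree_finsetSum_le fun i hi => (hf i hi).2⟩
  rw [MvPolynomial.coeff_sum]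
  exact Submodule.sum_mem _ fun i hi => (hf i hi).1 t

theorem CoefMv.neg {E : Submodule κ C} {k : ℕ} {f : MvPolynomial τ C} (hf : CoefMv E k f) :
    CoefMv E k (-f) := by
  refine ⟨fun t => ?_, by rw [MvPolynomial.totalDegree_neg]; exact hf.2⟩
  rw [MvPolynomial.coeff_neg]
  exact Submodule.neg_mem _ (hf.1 t)

theorem CoefMv.add {E : Submodule κ C} {k : ℕ} {f g : MvPolynomial τ C} (hf : CoefMv E k f)
    (hg : CoefMv E k g) : CoefMv E k (f + g) := by
  refine ⟨fun t => ?_, (MvPolynomial.totalDegree_add f g).trans (max_le hf.2 hg.2)⟩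
  rw [MvPolynomial.coeff_add]
  exact Submodule.add_mem _ (hf.1 t) (hg.1 t)

theorem CoefMv.mono {E : Submodule κ C} (hE : (1 : C) ∈ E) {k l : ℕ} (hkl : k ≤ l)
    {f : MvPolynomial τ C} (hf : CoefMv E k f) : CoefMv E l f :=
  ⟨fun s => pow_le_pow_right' (Submodule.one_le.2 hE) hkl (hf.1 s), hf.2.trans hkl⟩

theorem CoefMv.det {E : Submodule κ C} {n : ℕ} (G : Matrix (Fin n) (Fin n) (MvPolynomial τ C))
    (hG : ∀ i j, CoefMv E 1 (G i j)) : CoefMv E n G.det := by
  rw [Matrix.det_apply]
  apply CoefMv.sum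
  intro σ _
  have h1 : CoefMv E n (∏ i, G (σ i) i) := by
    have := CoefMv.prod (E := E) (univ : Finset (Fin n)) (fun i => G (σ i) i) (fun i _ => hG _ _)
    rwa [Finset.card_univ, Fintype.card_fin] at this
  rcases Int.units_eq_one_or (Equiv.Perm.sign σ) with h | h
  · rw [h, one_smul]; exact h1
  · rw [h, Units.neg_smul, one_smul]; exact h1.neg

theorem CoefMv.const {E : Submodule κ C} {c : C} (hc : c ∈ E) :
    CoefMv E 1 (MvPolynomial.C (σ := τ) c) := by
  classical
  refine ⟨fun s => ?_, by rw [MvPolynomial.totalDegree_C]; exact Nat.zero_le _⟩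
  rw [MvPolynomial.coeff_C, pow_one]
  split_ifs
  · exact hc
  · exact Submodule.zero_mem _

theorem CoefMv.monomial {E : Submodule κ C} {c : C} (hc : c ∈ E) (i : τ) :
    CoefMv E 1 (MvPolynomial.C c * MvPolynomial.X i) := by
  classical
  refine ⟨fun s => ?_, ?_⟩
  · rw [MvPolynomial.coeff_C_mul, pow_one, MvPolynomial.coeff_X]
    split_ifs
    · rw [mul_one]; exact hc
    · rw [mul_zero]; exact Submodule.zero_mem _
  · refine (MvPolynomial.totalDegree_mul _ _).trans ?_
    rw [MvPolynomial.totalDegree_C, MvPolynomial.totalDegree_X]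

end Coef

/-- **One step.** -/
theorem step {κ C : Type} [Field κ] [IsAlgClosed κ] [CharZero κ] [Field C] [CharZero C] [Algebra κ C]
    (Λ : Submodule ℚ C) (hΛ : ¬ Module.Finite ℚ Λ) (hB : BakerProp κ Λ) (m : ℕ)
    (P : Fin (m + 1) → Submodule ℚ C) (hPf : ∀ i, Module.Finite ℚ (P i))
    (hPg : ∀ j : Fin (m + 1), ZeroProp (⨆ i : {i // i ≠ j}, P i)) (μ : C) (hμΛ : μ ∈ Λ) (hμ : μ ∉ ⨆ i, P i) :
    ∃ x : Fin (m + 1) → C, (∀ i, x i ∈ Λ) ∧ ∑ i, x i = μ ∧
      (∀ c : Fin (m + 1) → ℚ, ∑ i, c i • x i ∈ ⨆ i, P i → ∀ i, c i = 0) ∧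
      ∀ j : Fin (m + 1), ZeroProp (⨆ i : {i // i ≠ j}, (P i ⊔ Submodule.span ℚ {x (i : Fin (m + 1))})) := by
  classical
  set S : Submodule ℚ C := ⨆ i, P i with hS
  have hSf : Module.Finite ℚ S := by rw [hS]; infer_instance
  set T : Submodule ℚ C := S ⊔ Submodule.span ℚ {μ} with hT
  have hTf : Module.Finite ℚ T := by rw [hT]; infer_instance
  have hμT : μ ∈ T := Submodule.mem_sup_right (Submodule.mem_span_singleton_self μ)
  have hST : S ≤ T := le_sup_left
  set N : ℕ := finrank ℚ T + m + 1 with hN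
  set E : Submodule κ C := affSpan κ T with hE
  have hEf : Module.Finite κ E := affSpan_finite T
  have h1E : (1 : C) ∈ E := one_mem_affSpan T
  have hTE : ∀ x ∈ T, x ∈ E := fun x hx => mem_affSpan T hx
  have hWf : Module.Finite κ (E ^ N : Submodule κ C) := (finrank_pow_le E _ le_rfl N).1
  obtain ⟨l, hl, hrel⟩ := infinite_noRel (κ := κ) Λ hΛ hB (E ^ N) (fun _ => N)
  have hrel := hrel m
  set β : Fin m → C := fun i => l i with hβ
  -- the polynomials
  have hzero : ∀ Q : MvPolynomial (Fin m) C, CoefMv E N Q → MvPolynomial.eval β Q = 0 → Q = 0 := by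
    intro Q hQ h0
    exact hrel Q (fun i => (MvPolynomial.degreeOf_le_totalDegree Q i).trans hQ.2) hQ.1 h0
  let xx : (Fin m → C) → Fin (m + 1) → C := fun γ => Fin.cons (μ - ∑ i, γ i) γ
  let ξ : Fin (m + 1) → MvPolynomial (Fin m) C :=
    Fin.cons (MvPolynomial.C μ - ∑ i, MvPolynomial.X i) (fun i => MvPolynomial.X i)
  have hξeval : ∀ (γ : Fin m → C) i, MvPolynomial.eval γ (ξ i) = xx γ i := by
    intro γ i
    refine Fin.cases ?_ (fun i => ?_) i
    · simp [ξ, xx]
    · simp [ξ, xx]
  have hξcoef : ∀ (q : ℚ) i, CoefMv E 1 (MvPolynomial.C (q : C) * ξ i) := by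
    intro q i
    refine Fin.cases ?_ (fun i => ?_) i
    · have e1 : MvPolynomial.C (q : C) * ξ 0 = MvPolynomial.C ((q : C) * μ) +
          ∑ i, -(MvPolynomial.C (q : C) * MvPolynomial.X i) := by
        simp only [ξ, Fin.cons_zero, Finset.sum_neg_distrib, mul_sub, map_mul, Finset.mul_sum]
        ring
      rw [e1]
      refine (CoefMv.const ?_).add (CoefMv.sum _ _ _ fun i _ => (CoefMv.monomial ?_ i).neg)
      · have : (q : C) * μ = q • μ := by rw [Rat.smul_def]
        rw [this]
        exact hTE _ (T.smul_mem _ hμT)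
      · exact ratCast_mem_affSpan T q
    · have e1 : ξ i.succ = MvPolynomial.X i := by simp [ξ]
      rw [e1]
      exact CoefMv.monomial (ratCast_mem_affSpan T q) i
  refine ⟨xx β, ?_, ?_, ?_, ?_⟩
  · intro i
    refine Fin.cases ?_ (fun i => ?_) i
    · simp only [xx, Fin.cons_zero]
      exact Λ.sub_mem hμΛ (Submodule.sum_mem _ fun i _ => hl _)
    · simp only [xx, Fin.cons_succ]
      exact hl _
  · rw [Fin.sum_univ_succ]
    simp only [xx, Fin.cons_zero, Fin.cons_succ]
    ring
  · intro c hc
    -- the linear relation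
    set s : C := ∑ i, c i • xx β i with hs
    have hQ := hzero (∑ i, MvPolynomial.C ((c i : ℚ) : C) * ξ i - MvPolynomial.C s) (by
      rw [sub_eq_add_neg]
      refine ((CoefMv.sum _ 1 _ fun i _ => hξcoef _ _).add (CoefMv.const (hTE _ (hST hc))).neg).mono
        h1E (by omega)) (by
      rw [map_sub, map_sum]
      simp only [map_mul, MvPolynomial.eval_C, hξeval]
      rw [hs]
      simp only [Rat.smul_def]
      ring)
    have hval : ∀ γ : Fin m → C, ∑ i, ((c i : ℚ) : C) * xx γ i = s := by
      intro γ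
      have h2 := congrArg (MvPolynomial.eval γ) hQ
      rw [map_sub, map_sum, map_zero] at h2
      simp only [map_mul, MvPolynomial.eval_C, hξeval] at h2
      exact sub_eq_zero.1 h2
    have h0 := hval 0
    have hc0 : c 0 = 0 := by
      by_contra hne
      apply hμ
      have h3 : ((c 0 : ℚ) : C) * μ = s := by
        rw [← h0, Fin.sum_univ_succ]
        simp [xx]
      have h4 : μ = (c 0)⁻¹ • s := by
        rw [← h3, ← Rat.smul_def, smul_smul, inv_mul_cancel₀ hne, one_smul]
      rw [h4]
      exact S.smul_mem _ hc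
    intro i
    refine Fin.cases hc0 (fun i => ?_) i
    have h5 := hval (Pi.single i 1)
    rw [← h0, Fin.sum_univ_succ, Fin.sum_univ_succ] at h5
    simp only [xx, Fin.cons_zero, Fin.cons_succ, hc0, Rat.cast_zero, zero_mul, zero_add,
      Pi.zero_apply, mul_zero, Finset.sum_const_zero] at h5
    rw [Finset.sum_eq_single i (fun b _ hb => by simp [hb]) (by simp)] at h5
    simpa using h5
  · intro j
    have e1 : (⨆ i : {i // i ≠ j}, (P i ⊔ Submodule.span ℚ {xx β (i : Fin (m + 1))})) =
        (⨆ i : {i // i ≠ j}, P i) ⊔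
          Submodule.span ℚ (Set.range fun i : {i // i ≠ j} => xx β i) := by
      rw [iSup_sup_eq, Submodule.span_range_eq_iSup]
    rw [e1]
    have hVS : (⨆ i : {i // i ≠ j}, P i) ≤ S := iSup_le fun i => le_iSup P (i : Fin (m + 1))
    have hcard : Fintype.card {i : Fin (m + 1) // i ≠ j} = m := by
      rw [Fintype.card_subtype_compl, Fintype.card_fin]
      simp
    refine (Pool.Agent.Y921.SR.extend (⨆ i : {i // i ≠ j}, P i) (hPg j)
      (fun i : {i // i ≠ j} => xx β i) ?_).2
    intro n hn W Cc hW hdet X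
    have hnN : n ≤ N := by
      have h2 : finrank ℚ (⨆ i : {i // i ≠ j}, P i : Submodule ℚ C) ≤ finrank ℚ T :=
        Submodule.finrank_mono (hVS.trans hST)
      rw [hcard] at hn
      omega
    set G : Matrix (Fin n) (Fin n) (MvPolynomial (Fin m) C) := Matrix.of fun a b =>
      MvPolynomial.C (W a b) + ∑ p : {i // i ≠ j}, MvPolynomial.C ((Cc a b p : ℚ) : C) * ξ p with hG
    have hGe : ∀ γ : Fin m → C, MvPolynomial.eval γ G.det =
        (Mt W Cc (fun i : {i // i ≠ j} => xx γ i)).det := by
      intro γ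
      have h3 := RingHom.map_det (MvPolynomial.eval γ) G
      rw [h3]
      congr 1
      ext a b
      simp only [hG, RingHom.mapMatrix_apply, Matrix.map_apply, Matrix.of_apply, Mt, map_add,
        map_sum, map_mul, MvPolynomial.eval_C, hξeval, Rat.smul_def]
    have hG0 : G.det = 0 := by
      apply hzero
      · refine (CoefMv.det G fun a b => ?_).mono h1E hnN
        simp only [hG, Matrix.of_apply]
        exact (CoefMv.const (hTE _ (hST (hVS (hW a b))))).add (CoefMv.sum _ _ _ fun p _ => hξcoef _ _)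
      · rw [hGe, hdet]
    -- all values are attained
    obtain ⟨γ, hγ⟩ : ∃ γ : Fin m → C, ∀ p : {i // i ≠ j}, xx γ p = X p := by
      let X' : Fin (m + 1) → C := fun i => if h : i = j then μ - ∑ p, X p else X ⟨i, h⟩
      have hX' : ∑ i, X' i = μ := by
        rw [← Fintype.sum_subtype_add_sum_subtype (fun i => i ≠ j)]
        have e2 : ∑ i : {i // i ≠ j}, X' i = ∑ p, X p := by
          refine Finset.sum_congr rfl fun p _ => ?_
          simp only [X']
          rw [dif_neg p.2]
        have e3 : ∑ i : {i // ¬ i ≠ j}, X' i = μ - ∑ p, X p := by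
          have hu : Unique {i : Fin (m + 1) // ¬ i ≠ j} :=
            ⟨⟨⟨j, fun h => h rfl⟩⟩, fun a => Subtype.ext (not_not.1 a.2)⟩
          rw [Fintype.sum_unique]
          simp only [X']
          rw [dif_pos (not_not.1 (default : {i : Fin (m + 1) // ¬ i ≠ j}).2)]
        rw [e2, e3]
        ring
      refine ⟨fun i => X' i.succ, fun p => ?_⟩
      have h4 : ∀ i, xx (fun i => X' i.succ) i = X' i := by
        intro i
        refine Fin.cases ?_ (fun i => ?_) i
        · simp only [xx, Fin.cons_zero]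
          rw [← hX', Fin.sum_univ_succ]
          ring
        · simp only [xx, Fin.cons_succ]
      rw [h4]
      simp only [X']
      rw [dif_neg p.2]
    have h5 := hGe γ
    rw [hG0, map_zero] at h5
    rw [h5]
    congr 2
    funext p
    exact (hγ p).symm

end Pool.Agent.Helper71.MLog
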