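import Mathlib
import Pool.Graph.R_seed8.Y787.AS.Blk
import Pool.Graph.R_seed8.Y787.AS.Det
import Pool.Graph.R_seed8.Y921.SR.Pencil
import Pool.Agent.Helper71.MLog.Split

/-!
# Violations of minimal size
-/

set_option autoImplicit false

namespace Pool.Agent.Helper71.MLog

open Finset Module Matrix
open Pool.Agent.Y787.AS (RZ NoLine)

variable {E : Type} [Field E] [CharZero E]

/-- every singular matrix of size at most `n` with entries in `V` has a rational zero -/
def GoodUpTo (n : ℕ) (V : Submodule ℚ E) : Prop :=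
  ∀ n' : ℕ, n' ≤ n → ∀ M : Matrix (Fin n') (Fin n') E, (∀ i j, M i j ∈ V) → M.det = 0 → RZ ℚ M

theorem GoodUpTo.mono {n : ℕ} {V V' : Submodule ℚ E} (h : V ≤ V') (hV : GoodUpTo n V') :
    GoodUpTo n V := fun n' hn M hM hdet => hV n' hn M (fun i j => h (hM i j)) hdet

theorem rank_lt_of_det_eq_zero {K : Type} [Field K] {n : ℕ} (M : Matrix (Fin n) (Fin n) K)
    (h : M.det = 0) : M.rank < n := by
  obtain ⟨v, hv, hv0⟩ := Matrix.exists_mulVec_eq_zero_iff.2 h
  have h1 := LinearMap.finrank_range_add_finrank_ker M.mulVecLin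
  rw [finrank_fintype_fun_eq_card, Fintype.card_fin] at h1
  have h2 : 0 < finrank K (LinearMap.ker M.mulVecLin) := by
    rw [Module.finrank_pos_iff_exists_ne_zero]
    exact ⟨⟨v, by rw [LinearMap.mem_ker, Matrix.mulVecLin_apply, hv0]⟩,
      fun h0 => hv (congrArg Subtype.val h0)⟩
  change M.rank + _ = n at h1
  omega

/-- A violation of minimal size lies on no line of singular matrices with rational direction. -/
theorem exists_primitive {n : ℕ} {V : Submodule ℚ E} (hV : ¬ GoodUpTo n V) :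
    ∃ n' : ℕ, n' ≤ n ∧ ∃ M : Matrix (Fin n') (Fin n') E, (∀ i j, M i j ∈ V) ∧ M.det = 0 ∧
      ¬ RZ ℚ M ∧ NoLine ℚ M := by
  classical
  have hex : ∃ n' : ℕ, n' ≤ n ∧ ∃ M : Matrix (Fin n') (Fin n') E, (∀ i j, M i j ∈ V) ∧
      M.det = 0 ∧ ¬ RZ ℚ M := by
    unfold GoodUpTo at hV
    push Not at hV
    obtain ⟨n', hn, M, h1, h2, h3⟩ := hV
    exact ⟨n', hn, M, h1, h2, h3⟩
  obtain ⟨n', ⟨hn, M, hM, hdet, hz⟩, hmin'⟩ := Nat.findX hex
  have hmin : ∀ m < n', ∀ N : Matrix (Fin m) (Fin m) E, (∀ i j, N i j ∈ V) → N.det = 0 → RZ ℚ N := by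
    intro m hm N hN hNdet
    by_contra hcon
    exact hmin' m hm ⟨by omega, N, hN, hNdet, hcon⟩
  refine ⟨n', hn, M, hM, hdet, hz, ?_⟩
  intro A hA
  by_contra hcon
  push Not at hcon
  apply hz
  obtain ⟨s, hs⟩ : ∃ s, A.rank = s := ⟨_, rfl⟩
  have hs1 : 1 ≤ s := by
    rw [← hs]
    by_contra h0
    apply hA
    have h1 : A.rank = 0 := by omega
    have h2 : LinearMap.range A.mulVecLin = ⊥ := Submodule.finrank_eq_zero.1 h1
    have h3 : A.mulVecLin = 0 := LinearMap.range_eq_bot.1 h2
    ext i j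
    have h4 := congrFun (LinearMap.congr_fun h3 (Pi.single j 1)) i
    rw [Matrix.mulVecLin_apply, Matrix.mulVec_single_one] at h4
    exact h4
  have hn0 : 0 < n' := by
    rcases Nat.eq_zero_or_pos n' with h | h
    · exfalso
      have : IsEmpty (Fin n') := by rw [h]; infer_instance
      rw [Matrix.det_isEmpty] at hdet
      exact one_ne_zero hdet
    · exact h
  obtain ⟨U, hU1, hU2⟩ := Pool.Agent.Y787.AS.ker_basis A hs
  obtain ⟨W, hW1, hW2⟩ := Pool.Agent.Y787.AS.coker_basis A hs
  set φ : ℚ →+* E := algebraMap ℚ E with hφ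
  have hW1' : W.map φ * A.map φ = 0 := by
    rw [← Matrix.map_mul, hW1, Matrix.map_zero _ (map_zero φ)]
  have hU1' : A.map φ * U.map φ = 0 := by
    rw [← Matrix.map_mul, hU1, Matrix.map_zero _ (map_zero φ)]
  have hline : ∀ x : E, (M + x • A.map φ).rank ≤ n' - 1 := by
    intro x
    have h1 : (M + x • A.map φ).rank < n' := rank_lt_of_det_eq_zero _ (hcon x)
    omega
  have h1 := Pool.Agent.Y787.AS.line_rank M (A.map φ) hline (W.map φ) (U.map φ) hW1' hU1'
  have h2 : s ≤ (A.map φ).rank := by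
    rw [← hs]
    exact Pool.Agent.Y787.AS.rank_le_map A
  have hD : (W.map φ * M * U.map φ).rank < n' - s := by omega
  have hD0 : (W.map φ * M * U.map φ).det = 0 := by
    by_contra h3
    have h4 := Matrix.rank_of_det_ne_zero h3
    rw [Fintype.card_fin] at h4
    omega
  exact Pool.Agent.Y787.AS.rz_of_prod M W U hW2 hU2
    (hmin (n' - s) (by omega) _ (Pool.Agent.Y787.AS.mem_prod M hM W U) hD0)

/-- a linear combination of the coordinates -/
noncomputable def lam {W : Submodule ℚ E} [Module.Finite ℚ W] {n : ℕ}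
    (a : Fin (finrank ℚ W) → Fin (n + 1)) : W →ₗ[ℚ] ℚ :=
  ∑ k, ((a k : ℕ) : ℚ) • (Module.finBasis ℚ W).coord k

theorem lam_apply {W : Submodule ℚ E} [Module.Finite ℚ W] {n : ℕ}
    (a : Fin (finrank ℚ W) → Fin (n + 1)) (x : W) :
    lam a x = ∑ k, ((a k : ℕ) : ℚ) * (Module.finBasis ℚ W).repr x k := by
  simp [lam, LinearMap.sum_apply]

theorem zeroProp_bot {C : Type} [Field C] [CharZero C] :
    Pool.Agent.Y921.SR.ZeroProp (⊥ : Submodule ℚ C) := by
  intro n hn M hM _
  refine ⟨fun _ => 1, fun _ => 1, ?_, ?_, ?_⟩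
  · intro h
    exact one_ne_zero (congrFun h ⟨0, hn⟩)
  · intro h
    exact one_ne_zero (congrFun h ⟨0, hn⟩)
  · refine Finset.sum_eq_zero fun i _ => Finset.sum_eq_zero fun j _ => ?_
    rw [(Submodule.mem_bot ℚ).1 (hM i j), smul_zero]

/-- For a matrix without rational zero some combination of the coordinates, out of finitely many, is
a regular matrix. -/
theorem exists_lam {W : Submodule ℚ E} [Module.Finite ℚ W] {n n' : ℕ} (hn : n' ≤ n)
    (A : Matrix (Fin n') (Fin n') W) (hA : ¬ RZ ℚ (A.map (fun x => (x : E)))) :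
    ∃ a : Fin (finrank ℚ W) → Fin (n + 1), (A.map (lam a)).det ≠ 0 := by
  classical
  set e := Module.finBasis ℚ W with he
  set D : MvPolynomial (Fin (finrank ℚ W)) ℚ := Matrix.det (Matrix.of fun i j =>
    ∑ k, MvPolynomial.C (e.repr (A i j) k) * MvPolynomial.X k) with hD
  have heval : ∀ x : Fin (finrank ℚ W) → ℚ, MvPolynomial.eval x D =
      (Matrix.of fun i j => ∑ k, x k * e.repr (A i j) k).det := by
    intro x
    have h1 := RingHom.map_det (MvPolynomial.eval x) (Matrix.of fun i j =>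
      ∑ k, MvPolynomial.C (e.repr (A i j) k) * (MvPolynomial.X k : MvPolynomial (Fin (finrank ℚ W)) ℚ))
    rw [hD, h1]
    congr 1
    ext i j
    simp only [RingHom.mapMatrix_apply, Matrix.map_apply, Matrix.of_apply, map_sum, map_mul,
      MvPolynomial.eval_C, MvPolynomial.eval_X]
    exact Finset.sum_congr rfl fun k _ => mul_comm _ _
  have hD0 : D ≠ 0 := by
    intro h0
    obtain ⟨w, v, hw, hv, -, h2⟩ := Pool.Agent.Y921.SR.family (K := ℚ) (A := ℚ)
      (σ := Fin (finrank ℚ W)) zeroProp_bot (0 : Matrix (Fin n') (Fin n') ℚ)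
      (fun i j => Submodule.zero_mem _) (fun k => Matrix.of fun i j => e.repr (A i j) k) (by
        intro X
        rw [← map_zero (MvPolynomial.eval X), ← h0, heval]
        congr 1
        ext i j
        simp [Matrix.sum_apply])
    apply hA
    refine ⟨w, v, hw, hv, ?_⟩
    have h3 : ∀ i j, ((A i j : W) : E) = ∑ k, (e.repr (A i j) k) • (e k : E) := by
      intro i j
      have := congrArg (fun x : W => (x : E)) (e.sum_repr (A i j))
      simp only [Submodule.coe_sum, Submodule.coe_smul] at this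
      exact this.symm
    have h4 : ∀ i j, algebraMap ℚ E (w i) * (A.map (fun x => (x : E))) i j * algebraMap ℚ E (v j) =
        ∑ k, (w i * e.repr (A i j) k * v j) • (e k : E) := by
      intro i j
      rw [Matrix.map_apply, h3, Finset.mul_sum, Finset.sum_mul]
      refine Finset.sum_congr rfl fun k _ => ?_
      simp only [Algebra.smul_def, map_mul]
      ring
    simp only [h4]
    have h5 : ∑ i, ∑ j, ∑ k, (w i * e.repr (A i j) k * v j) • (e k : E) =
        ∑ k, (∑ i, ∑ j, w i * e.repr (A i j) k * v j) • (e k : E) := by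
      simp only [Finset.sum_smul]
      rw [Finset.sum_comm (s := (univ : Finset (Fin (finrank ℚ W))))]
      refine Finset.sum_congr rfl fun i _ => ?_
      rw [Finset.sum_comm (s := (univ : Finset (Fin (finrank ℚ W))))]
    rw [h5]
    refine Finset.sum_eq_zero fun k _ => ?_
    have h6 := h2 k
    simp only [dotProduct, Matrix.mulVec, Matrix.of_apply, Finset.mul_sum] at h6
    have h7 : ∑ i, ∑ j, w i * e.repr (A i j) k * v j = 0 := by
      rw [← h6]
      exact Finset.sum_congr rfl fun i _ => Finset.sum_congr rfl fun j _ => by ring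
    rw [h7, zero_smul]
  have hdeg : D.totalDegree ≤ n' := by
    refine (CoefMv.det (E := (⊤ : Submodule ℚ ℚ)) _ fun i j => ?_).2
    rw [Matrix.of_apply]
    exact CoefMv.sum _ _ _ fun k _ => CoefMv.monomial Submodule.mem_top k
  by_contra hcon
  push Not at hcon
  apply hD0
  refine MvPolynomial.eq_zero_of_eval_zero_at_prod_finset D
    (fun _ => (Finset.range (n + 1)).image (fun m : ℕ => (m : ℚ))) (fun i => ?_) fun x hx => ?_
  · rw [Finset.card_image_of_injective _ Nat.cast_injective, Finset.card_range]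
    have := MvPolynomial.degreeOf_le_totalDegree D i
    omega
  · have h1 : ∀ k, ∃ a : Fin (n + 1), ((a : ℕ) : ℚ) = x k := by
      intro k
      obtain ⟨m, hm, hm'⟩ := Finset.mem_image.1 (hx k)
      exact ⟨⟨m, Finset.mem_range.1 hm⟩, hm'⟩
    choose a ha using h1
    rw [heval, ← hcon a]
    congr 1
    ext i j
    rw [Matrix.of_apply, Matrix.map_apply, lam_apply]
    exact Finset.sum_congr rfl fun k _ => by rw [ha k]

end Pool.Agent.Helper71.MLog
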