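import Mathlib
import Pool.Agent.Helper71.MLog.Gen
import Pool.Agent.Helper71.MLog.Prim

/-!
# Good subspaces of bounded codimension
-/

set_option autoImplicit false

namespace Pool.Agent.Helper71.MLog

open Finset Module Matrix Filter
open Pool.Agent.Y787.AS (RZ NoLine GE ge ge_eq ge_eq_zero Wts' det_dim)
open Pool.Agent.W254.PA (Hyp)

section act

variable {E : Type} [Field E] [CharZero E] {F : Submodule ℚ E} {m : ℕ}

/-- left multiplication by a rational matrix -/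
def lact (R : Matrix (Fin m) (Fin m) ℚ) (A : Matrix (Fin m) (Fin m) F) : Matrix (Fin m) (Fin m) F :=
  Matrix.of fun i j => ∑ l, R i l • A l j

theorem lact_map (R : Matrix (Fin m) (Fin m) ℚ) (A : Matrix (Fin m) (Fin m) F) :
    (lact R A).map (fun x => (x : E)) = R.map (algebraMap ℚ E) * A.map (fun x => (x : E)) := by
  ext i j
  simp only [lact, Matrix.map_apply, Matrix.of_apply, Matrix.mul_apply, Submodule.coe_sum,
    Submodule.coe_smul, Algebra.smul_def]

theorem lact_lin (f : F →ₗ[ℚ] ℚ) (R : Matrix (Fin m) (Fin m) ℚ) (A : Matrix (Fin m) (Fin m) F) :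
    (lact R A).map f = R * A.map f := by
  ext i j
  simp only [lact, Matrix.map_apply, Matrix.of_apply, Matrix.mul_apply, map_sum, map_smul,
    smul_eq_mul]

theorem det_map_ne {R : Matrix (Fin m) (Fin m) ℚ} (hR : R.det ≠ 0) :
    (R.map (algebraMap ℚ E)).det ≠ 0 := by
  have h1 := RingHom.map_det (algebraMap ℚ E) R
  rw [RingHom.mapMatrix_apply] at h1
  rw [← h1]
  exact (map_ne_zero _).2 hR

theorem noLine_mul {R : Matrix (Fin m) (Fin m) ℚ} (hR : R.det ≠ 0) {M : Matrix (Fin m) (Fin m) E}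
    (h : NoLine ℚ M) : NoLine ℚ (R.map (algebraMap ℚ E) * M) := by
  intro B hB
  have hu : IsUnit R.det := isUnit_iff_ne_zero.2 hR
  obtain ⟨x, hx⟩ := h (R⁻¹ * B) (by
    intro h0
    apply hB
    have h1 : R * (R⁻¹ * B) = B := by rw [← Matrix.mul_assoc, Matrix.mul_nonsing_inv R hu, Matrix.one_mul]
    rw [← h1, h0, Matrix.mul_zero])
  refine ⟨x, ?_⟩
  have h2 : R.map (algebraMap ℚ E) * M + x • B.map (algebraMap ℚ E) =
      R.map (algebraMap ℚ E) * (M + x • (R⁻¹ * B).map (algebraMap ℚ E)) := by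
    rw [Matrix.mul_add, Matrix.mul_smul, ← Matrix.map_mul, ← Matrix.mul_assoc R,
      Matrix.mul_nonsing_inv R hu, Matrix.one_mul]
  rw [h2, Matrix.det_mul]
  exact mul_ne_zero (det_map_ne hR) hx

end act

/-- the properties of the violations used below -/
def Vio {E : Type} [Field E] [CharZero E] {F : Submodule ℚ E} [Module.Finite ℚ F] {c q n m : ℕ}
    (π : Fin q → (F →ₗ[ℚ] ℚ)) (φ : Fin c → Fin q → ℚ)
    (a : Fin (finrank ℚ F) → Fin (n + 1)) (P : Matrix (Fin m) (Fin m) ℚ) (i₀ j₀ : Fin m)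
    (k₀ : Fin q) (A : Matrix (Fin m) (Fin m) F) : Prop :=
  (A.map (fun x => (x : E))).det = 0 ∧ NoLine ℚ (A.map (fun x => (x : E))) ∧
    (∀ b i j, ∑ k, φ b k * π k (A i j) = 0) ∧ A.map (lam a) = P ∧ π k₀ (A i₀ j₀) ≠ 0

theorem exists_vio {E : Type} [Field E] [CharZero E] {F G : Submodule ℚ E} [Module.Finite ℚ F]
    {c q n : ℕ} (hG : GoodUpTo n G) (π : Fin q → (F →ₗ[ℚ] ℚ))
    (hπ : ∀ x : F, (∀ k, π k x = 0) → (x : E) ∈ G) (φ : Fin c → Fin q → ℚ)
    (hbad : ¬ GoodUpTo n ((LinearMap.ker (LinearMap.pi fun b : Fin c => ∑ k, φ b k • π k)).map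
      F.subtype)) (P : ∀ m : ℕ, m ≤ n → Matrix (Fin m) (Fin m) ℚ)
    (hP : ∀ m h, (P m h).det ≠ 0) :
    ∃ (m : ℕ) (hm : m ≤ n) (a : Fin (finrank ℚ F) → Fin (n + 1)) (i₀ j₀ : Fin m) (k₀ : Fin q)
      (A : Matrix (Fin m) (Fin m) F), Vio π φ a (P m hm) i₀ j₀ k₀ A := by
  classical
  obtain ⟨m, hm, M, hM, hdet, hz, hline⟩ := exists_primitive hbad
  have hMF : ∀ i j, ∃ x : F, (x : E) = M i j ∧ ∀ b, ∑ k, φ b k * π k x = 0 := by
    intro i j
    obtain ⟨x, hx, hx'⟩ := Submodule.mem_map.1 (hM i j)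
    refine ⟨x, hx', fun b => ?_⟩
    have := congrFun (LinearMap.mem_ker.1 hx) b
    simpa [LinearMap.sum_apply] using this
  choose A hAM hAφ using hMF
  have hA : (Matrix.of A).map (fun x => (x : E)) = M := by
    ext i j
    exact hAM i j
  obtain ⟨a, ha⟩ := exists_lam hm (Matrix.of A) (by rw [hA]; exact hz)
  set R : Matrix (Fin m) (Fin m) ℚ := P m hm * ((Matrix.of A).map (lam a))⁻¹ with hR
  have hau : IsUnit ((Matrix.of A).map (lam a)).det := isUnit_iff_ne_zero.2 ha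
  have hRdet : R.det ≠ 0 := by
    rw [hR, Matrix.det_mul]
    refine mul_ne_zero (hP m hm) ?_
    intro h0
    have h1 := congrArg Matrix.det (Matrix.mul_nonsing_inv _ hau)
    rw [Matrix.det_mul, h0, mul_zero, Matrix.det_one] at h1
    exact zero_ne_one h1
  have hne : ∃ i j k, π k (lact R (Matrix.of A) i j) ≠ 0 := by
    by_contra hcon
    push Not at hcon
    apply hz
    refine hG m hm M (fun i j => ?_) hdet
    rw [← hAM i j]
    apply hπ
    intro k
    have h1 := lact_lin (π k) R (Matrix.of A)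
    have h2 : (lact R (Matrix.of A)).map (π k) = 0 := by
      ext i j
      exact hcon i j k
    rw [h2] at h1
    have h3 : (Matrix.of A).map (π k) = 0 := by
      have hRu : IsUnit R.det := isUnit_iff_ne_zero.2 hRdet
      have h4 : R⁻¹ * (R * (Matrix.of A).map (π k)) = (Matrix.of A).map (π k) := by
        rw [← Matrix.mul_assoc, Matrix.nonsing_inv_mul R hRu, Matrix.one_mul]
      rw [← h4, ← h1, Matrix.mul_zero]
    exact congrFun (congrFun h3 i) j
  obtain ⟨i₀, j₀, k₀, hijk⟩ := hne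
  refine ⟨m, hm, a, i₀, j₀, k₀, lact R (Matrix.of A), ?_, ?_, ?_, ?_, hijk⟩
  · rw [lact_map, Matrix.det_mul, hA, hdet, mul_zero]
  · rw [lact_map, hA]
    exact noLine_mul hRdet hline
  · intro b i j
    simp only [lact, Matrix.of_apply, map_sum, map_smul, smul_eq_mul, Finset.mul_sum]
    rw [Finset.sum_comm]
    refine Finset.sum_eq_zero fun l _ => ?_
    have h1 := hAφ l j b
    calc ∑ k, φ b k * (R i l * π k (A l j)) = R i l * ∑ k, φ b k * π k (A l j) := by
          rw [Finset.mul_sum]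
          exact Finset.sum_congr rfl fun k _ => by ring
      _ = 0 := by rw [h1, mul_zero]
  · rw [lact_lin, hR, Matrix.mul_assoc, Matrix.nonsing_inv_mul _ hau, Matrix.mul_one]

/-- **The generic functional.** -/
theorem generic_bound {E : Type} [Field E] [CharZero E] {Lt : Submodule ℚ E} (hL : Hyp Lt)
    (hw : Wts' ℚ E) {F : Submodule ℚ E} [Module.Finite ℚ F] (hF : F ≤ Lt) {c q n m : ℕ}
    (hm : m ≤ n) (π : Fin q → (F →ₗ[ℚ] ℚ)) (a : Fin (finrank ℚ F) → Fin (n + 1))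
    (i₀ j₀ : Fin m) (k₀ : Fin q) (z : ℕ → (Fin c × Fin q) ⊕ (Fin n × Fin n) → ℚ)
    (hz : ∀ Ψ : MvPolynomial ((Fin c × Fin q) ⊕ (Fin n × Fin n)) ℚ, Ψ ≠ 0 →
      ∀ᶠ j in Filter.atTop, MvPolynomial.eval (z j) Ψ ≠ 0)
    (𝒰 : Ultrafilter ℕ) (h𝒰 : (𝒰 : Filter ℕ) ≤ atTop)
    (h : ∀ᶠ j in (𝒰 : Filter ℕ), ∃ A : Matrix (Fin m) (Fin m) F,
      Vio π (fun b k => z j (Sum.inl (b, k))) a
        (Matrix.of fun i i' => z j (Sum.inr (Fin.castLE hm i, Fin.castLE hm i'))) i₀ j₀ k₀ A) :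
    c + m * m ≤ m * m * (m * m - 1) := by
  classical
  have hinj : Function.Injective ((ge 𝒰 ℚ).comp (Pi.constRingHom ℕ ℚ)) := RingHom.injective _
  let algK : Algebra ℚ (GE 𝒰 ℚ) := ((ge 𝒰 ℚ).comp (Pi.constRingHom ℕ ℚ)).toAlgebra
  -- the choice
  have hch : ∀ j, ∃ A : Matrix (Fin m) (Fin m) F, (∃ A : Matrix (Fin m) (Fin m) F,
      Vio π (fun b k => z j (Sum.inl (b, k))) a
        (Matrix.of fun i i' => z j (Sum.inr (Fin.castLE hm i, Fin.castLE hm i'))) i₀ j₀ k₀ A) →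
      Vio π (fun b k => z j (Sum.inl (b, k))) a
        (Matrix.of fun i i' => z j (Sum.inr (Fin.castLE hm i, Fin.castLE hm i'))) i₀ j₀ k₀ A := by
    intro j
    by_cases hj : ∃ A : Matrix (Fin m) (Fin m) F,
      Vio π (fun b k => z j (Sum.inl (b, k))) a
        (Matrix.of fun i i' => z j (Sum.inr (Fin.castLE hm i, Fin.castLE hm i'))) i₀ j₀ k₀ A
    · obtain ⟨A, hA⟩ := hj
      exact ⟨A, fun _ => hA⟩
    · exact ⟨0, fun h => absurd h hj⟩
  choose A hA using hch
  have hV := h.mono hA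
  -- the germs
  let xs : Fin c × Fin q → GE 𝒰 ℚ := fun p => ge 𝒰 ℚ (fun j => z j (Sum.inl p))
  let ps : Fin m × Fin m → GE 𝒰 ℚ := fun p =>
    ge 𝒰 ℚ (fun j => z j (Sum.inr (Fin.castLE hm p.1, Fin.castLE hm p.2)))
  let ψ : (Fin m × Fin m × Fin q) ⊕ (Fin m × Fin m) → (Matrix (Fin m) (Fin m) F →ₗ[ℚ] ℚ) :=
    Sum.elim (fun p => π p.2.2 ∘ₗ (LinearMap.proj p.2.1 ∘ₗ LinearMap.proj p.1))
      (fun p => lam a ∘ₗ (LinearMap.proj p.2 ∘ₗ LinearMap.proj p.1))
  have hψ1 : ∀ p (B : Matrix (Fin m) (Fin m) F), ψ (Sum.inl p) B = π p.2.2 (B p.1 p.2.1) :=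
    fun p B => rfl
  have hψ2 : ∀ p (B : Matrix (Fin m) (Fin m) F), ψ (Sum.inr p) B = lam a (B p.1 p.2) :=
    fun p B => rfl
  let ys : (Fin m × Fin m × Fin q) ⊕ (Fin m × Fin m) → GE 𝒰 ℚ := fun r =>
    ge 𝒰 ℚ (fun j => ψ r (A j))
  have hps : ∀ p, ys (Sum.inr p) = ps p := by
    intro p
    rw [ge_eq]
    refine hV.mono fun j hj => ?_
    have h1 := hj.2.2.2.1
    have h2 := congrFun (congrFun h1 p.1) p.2
    rw [hψ2]
    exact h2
  -- independence
  have hind : AlgebraicIndependent ℚ (fun i => ge 𝒰 ℚ (fun j => z j i)) := germ_indep 𝒰 h𝒰 z hz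
  let emb : (Fin c × Fin q) ⊕ (Fin m × Fin m) → (Fin c × Fin q) ⊕ (Fin n × Fin n) :=
    Sum.map id (Prod.map (Fin.castLE hm) (Fin.castLE hm))
  have hemb : Function.Injective emb :=
    Function.Injective.sumMap Function.injective_id
      (Function.Injective.prodMap (Fin.castLE_injective hm) (Fin.castLE_injective hm))
  have hind' : AlgebraicIndependent ℚ (Sum.elim xs ps) := by
    have h1 := hind.comp emb hemb
    convert h1 using 1
    funext r
    rcases r with r | r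
    · rfl
    · rfl
  set Z : Set (GE 𝒰 ℚ) := Set.range (Sum.elim xs ps) with hZdef
  have hZcard : Z.encard = (c * q + m * m : ℕ) := by
    have h2 : Function.Injective (Sum.elim xs ps) := hind'.injective
    rw [hZdef, ← Set.image_univ, h2.encard_image, Set.encard_univ, ENat.card_eq_coe_fintype_card]
    simp
  set S : Set (GE 𝒰 ℚ) := Set.range ys with hSdef
  set T : Set (GE 𝒰 ℚ) := (fun p => xs p) '' {p : Fin c × Fin q | p.2 ≠ k₀} with hTdef
  have hTcard : T.encard ≤ (c * (q - 1) : ℕ) := by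
    refine (Set.encard_image_le _ _).trans ?_
    have h3 : {p : Fin c × Fin q | p.2 ≠ k₀} =
        ((Finset.univ : Finset (Fin c)) ×ˢ (Finset.univ.erase k₀ : Finset (Fin q)) :
          Finset (Fin c × Fin q)) := by
      ext p
      simp
    rw [h3, Set.encard_coe_eq_coe_finsetCard, Finset.card_product, Finset.card_erase_of_mem
      (Finset.mem_univ _)]
    simp
  have hmain := trdeg_bound S T Z (m * m * (m * m - 1)) (c * (q - 1)) ?_ hTcard
    hind'.to_subtype_range ?_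
  · rw [hZcard] at hmain
    have h4 : c * q + m * m ≤ m * m * (m * m - 1) + c * (q - 1) := by exact_mod_cast hmain
    have hq : 1 ≤ q := Nat.succ_le_of_lt (lt_of_le_of_lt (Nat.zero_le _) k₀.2)
    obtain ⟨q', rfl⟩ : ∃ q', q = q' + 1 := ⟨q - 1, by omega⟩
    rw [Nat.add_sub_cancel, Nat.mul_succ] at h4
    omega
  · -- many elements are dependent
    intro s hs
    choose r hr using hs
    obtain ⟨Ψ, hΨ, hΨ0⟩ := det_dim (n := m) hL hw F hF (fun i => ψ (r i))
    have h5 : s = fun i => ge 𝒰 ℚ (fun j => (fun i => ψ (r i) (A j)) i) := by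
      funext i
      exact (hr i).symm
    rw [h5]
    exact germ_dep 𝒰 (fun j i => ψ (r i) (A j)) Ψ hΨ
      (hV.mono fun j hj => hΨ0 (A j) hj.1 hj.2.1)
  · -- everything is algebraic
    set R := Algebra.adjoin ℚ (S ∪ T) with hR
    have hmemS : ∀ r, IsAlgebraic R (ys r) := fun r =>
      isAlgebraic_algebraMap (⟨ys r, Algebra.subset_adjoin (Or.inl ⟨r, rfl⟩)⟩ : R)
    have hmemT : ∀ p : Fin c × Fin q, p.2 ≠ k₀ → IsAlgebraic R (xs p) := fun p hp =>
      isAlgebraic_algebraMap (⟨xs p, Algebra.subset_adjoin (Or.inr ⟨p, hp, rfl⟩)⟩ : R)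
    rintro _ ⟨r, rfl⟩
    rcases r with ⟨b, k⟩ | r
    · by_cases hk : k = k₀
      · subst hk
        -- the linear relation
        have hy0 : ys (Sum.inl (i₀, j₀, k)) ≠ 0 := by
          intro h0
          rw [ge_eq_zero] at h0
          obtain ⟨j, h6, h7⟩ := (h0.and hV).exists
          exact h7.2.2.2.2 h6
        have hrel : ∑ k', xs (b, k') * ys (Sum.inl (i₀, j₀, k')) = 0 := by
          have h8 : ∑ k', xs (b, k') * ys (Sum.inl (i₀, j₀, k')) =
              ge 𝒰 ℚ (fun j => ∑ k', z j (Sum.inl (b, k')) * π k' (A j i₀ j₀)) := by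
            simp only [xs, ys, ← map_mul, ← map_sum]
            congr 1
            funext j
            rw [Finset.sum_apply]
            rfl
          rw [h8, ge_eq_zero]
          exact hV.mono fun j hj => hj.2.2.1 b i₀ j₀
        have h9 : xs (b, k) = -(∑ k' ∈ Finset.univ.erase k,
            xs (b, k') * ys (Sum.inl (i₀, j₀, k'))) * (ys (Sum.inl (i₀, j₀, k)))⁻¹ := by
          rw [eq_mul_inv_iff_mul_eq₀ hy0, eq_neg_iff_add_eq_zero]
          rw [← hrel, ← Finset.add_sum_erase _ _ (Finset.mem_univ k)]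
        change IsAlgebraic R (xs (b, k))
        rw [h9]
        refine IsAlgebraic.mul (IsAlgebraic.neg ?_) (IsAlgebraic.inv (hmemS _))
        have h10 : ∀ k' ∈ Finset.univ.erase k, xs (b, k') * ys (Sum.inl (i₀, j₀, k')) ∈
            Subalgebra.algebraicClosure R (GE 𝒰 ℚ) := fun k' hk' =>
          (hmemT (b, k') (Finset.ne_of_mem_erase hk')).mul (hmemS _)
        exact Subalgebra.sum_mem _ h10
      · exact hmemT (b, k) hk
    · change IsAlgebraic R (ps r)
      rw [← hps r]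
      exact hmemS _

/-- generic rational matrices are regular -/
theorem corner_det {c q n m : ℕ} (hm : m ≤ n)
    (z : ℕ → (Fin c × Fin q) ⊕ (Fin n × Fin n) → ℚ)
    (hz : ∀ Ψ : MvPolynomial ((Fin c × Fin q) ⊕ (Fin n × Fin n)) ℚ, Ψ ≠ 0 →
      ∀ᶠ j in Filter.atTop, MvPolynomial.eval (z j) Ψ ≠ 0) :
    ∀ᶠ j in Filter.atTop, (Matrix.of fun i i' : Fin m =>
      z j (Sum.inr (Fin.castLE hm i, Fin.castLE hm i'))).det ≠ 0 := by
  classical
  set Ψ : MvPolynomial ((Fin c × Fin q) ⊕ (Fin n × Fin n)) ℚ :=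
    (Matrix.of fun i i' : Fin m => (MvPolynomial.X (Sum.inr (Fin.castLE hm i, Fin.castLE hm i')) :
      MvPolynomial ((Fin c × Fin q) ⊕ (Fin n × Fin n)) ℚ)).det with hΨ
  have heval : ∀ x : (Fin c × Fin q) ⊕ (Fin n × Fin n) → ℚ, MvPolynomial.eval x Ψ =
      (Matrix.of fun i i' : Fin m => x (Sum.inr (Fin.castLE hm i, Fin.castLE hm i'))).det := by
    intro x
    rw [hΨ, RingHom.map_det]
    congr 1
    ext i j
    simp
  have hne : Ψ ≠ 0 := by
    intro h0
    have h1 := heval (Sum.elim (fun _ => 0) (fun p => if p.1 = p.2 then 1 else 0))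
    rw [h0, map_zero] at h1
    have h2 : (Matrix.of fun i i' : Fin m => (Sum.elim (fun _ => (0 : ℚ))
        (fun p : Fin n × Fin n => if p.1 = p.2 then 1 else 0))
          (Sum.inr (Fin.castLE hm i, Fin.castLE hm i') : (Fin c × Fin q) ⊕ (Fin n × Fin n))) =
        (1 : Matrix (Fin m) (Fin m) ℚ) := by
      ext i j
      simp only [Matrix.of_apply, Sum.elim_inr, Matrix.one_apply]
      by_cases h : i = j
      · simp [h]
      · rw [if_neg h, if_neg fun h' => h (Fin.castLE_injective hm h')]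
    rw [h2, Matrix.det_one] at h1
    exact zero_ne_one h1
  refine (hz Ψ hne).mono fun j hj => ?_
  rw [heval] at hj
  exact hj

/-- **One step.** -/
theorem codim_step {E : Type} [Field E] [CharZero E] {Lt : Submodule ℚ E} (hL : Hyp Lt)
    (hw : Wts' ℚ E) (n : ℕ) (F G : Submodule ℚ E) [Module.Finite ℚ F] (hF : F ≤ Lt) (hGF : G ≤ F)
    (hG : GoodUpTo n G) : ∃ G' : Submodule ℚ E, G ≤ G' ∧ G' ≤ F ∧ GoodUpTo n G' ∧
      finrank ℚ F ≤ finrank ℚ G' + (n * n - 1) ^ 2 := by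
  classical
  set c : ℕ := (n * n - 1) ^ 2 with hc
  set G₀ : Submodule ℚ F := G.comap F.subtype with hG₀
  set q : ℕ := finrank ℚ (F ⧸ G₀) with hq
  set f := Module.finBasis ℚ (F ⧸ G₀) with hf
  let π : Fin q → (F →ₗ[ℚ] ℚ) := fun k => f.coord k ∘ₗ G₀.mkQ
  have hπ : ∀ x : F, (∀ k, π k x = 0) ↔ (x : E) ∈ G := by
    intro x
    constructor
    · intro h
      have h1 : G₀.mkQ x = 0 := by
        rw [← f.repr.map_eq_zero_iff]
        ext k
        exact h k
      rw [Submodule.mkQ_apply, Submodule.Quotient.mk_eq_zero] at h1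
      exact h1
    · intro h k
      have h1 : G₀.mkQ x = 0 := by
        rw [Submodule.mkQ_apply, Submodule.Quotient.mk_eq_zero]
        exact h
      change f.coord k (G₀.mkQ x) = 0
      rw [h1, map_zero]
  by_contra hcon
  push Not at hcon
  have hbad : ∀ φ : Fin c → Fin q → ℚ, ¬ GoodUpTo n
      ((LinearMap.ker (LinearMap.pi fun b : Fin c => ∑ k, φ b k • π k)).map F.subtype) := by
    intro φ hgood
    have h1 := hcon _ ?_ (Submodule.map_subtype_le F _) hgood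
    · have h2 := LinearMap.finrank_range_add_finrank_ker
        (LinearMap.pi fun b : Fin c => ∑ k, φ b k • π k : F →ₗ[ℚ] (Fin c → ℚ))
      have h3 : finrank ℚ (LinearMap.range
          (LinearMap.pi fun b : Fin c => ∑ k, φ b k • π k : F →ₗ[ℚ] (Fin c → ℚ))) ≤ c := by
        refine (Submodule.finrank_le _).trans ?_
        rw [finrank_fintype_fun_eq_card, Fintype.card_fin]
      have h4 : finrank ℚ ((LinearMap.ker
          (LinearMap.pi fun b : Fin c => ∑ k, φ b k • π k : F →ₗ[ℚ] (Fin c → ℚ))).map F.subtype) =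
          finrank ℚ (LinearMap.ker
          (LinearMap.pi fun b : Fin c => ∑ k, φ b k • π k : F →ₗ[ℚ] (Fin c → ℚ))) :=
        (Submodule.equivMapOfInjective F.subtype F.subtype_injective _).finrank_eq.symm
      omega
    · intro x hx
      refine Submodule.mem_map.2 ⟨⟨x, hGF hx⟩, ?_, rfl⟩
      rw [LinearMap.mem_ker]
      funext b
      have h2 := (hπ ⟨x, hGF hx⟩).2 hx
      simp [LinearMap.sum_apply, h2]
  obtain ⟨z, hz⟩ := exists_generic ((Fin c × Fin q) ⊕ (Fin n × Fin n))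
  set 𝒰 : Ultrafilter ℕ := Ultrafilter.of atTop with h𝒰def
  have h𝒰 : (𝒰 : Filter ℕ) ≤ atTop := Ultrafilter.of_le _
  -- pigeonhole
  let TT : Type := (m : Fin (n + 1)) × (Fin (finrank ℚ F) → Fin (n + 1)) × Fin (m : ℕ) ×
    Fin (m : ℕ) × Fin q
  have hdet : ∀ᶠ j in (𝒰 : Filter ℕ), ∀ m : Fin (n + 1), (Matrix.of fun i i' : Fin (m : ℕ) =>
      z j (Sum.inr (Fin.castLE (Nat.le_of_lt_succ m.2) i, Fin.castLE (Nat.le_of_lt_succ m.2) i'))).det ≠ 0 := by
    rw [Filter.eventually_all]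
    intro m
    exact (corner_det (Nat.le_of_lt_succ m.2) z hz).filter_mono h𝒰
  have hex : ∀ᶠ j in (𝒰 : Filter ℕ), ∃ t : TT, ∃ A : Matrix (Fin (t.1 : ℕ)) (Fin (t.1 : ℕ)) F,
      Vio π (fun b k => z j (Sum.inl (b, k))) t.2.1
        (Matrix.of fun i i' => z j (Sum.inr (Fin.castLE (Nat.le_of_lt_succ t.1.2) i,
          Fin.castLE (Nat.le_of_lt_succ t.1.2) i'))) t.2.2.1 t.2.2.2.1 t.2.2.2.2 A := by
    refine hdet.mono fun j hj => ?_
    obtain ⟨m, hm, a, i₀, j₀, k₀, A, hA⟩ := exists_vio hG π (fun x => (hπ x).1)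
      (fun b k => z j (Sum.inl (b, k))) (hbad _)
      (fun m hm => Matrix.of fun i i' => z j (Sum.inr (Fin.castLE hm i, Fin.castLE hm i')))
      (fun m hm => hj ⟨m, Nat.lt_succ_of_le hm⟩)
    exact ⟨⟨⟨m, Nat.lt_succ_of_le hm⟩, a, i₀, j₀, k₀⟩, A, hA⟩
  obtain ⟨t, ht⟩ := ultra_pigeon 𝒰 _ hex
  have hmn : (t.1 : ℕ) ≤ n := Nat.le_of_lt_succ t.1.2
  have hbound := generic_bound hL hw hF hmn π t.2.1 t.2.2.1 t.2.2.2.1 t.2.2.2.2 z hz 𝒰 h𝒰 ht
  -- the numbers
  set m : ℕ := (t.1 : ℕ) with hmdef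
  have hm0 : 0 < m := lt_of_le_of_lt (Nat.zero_le _) t.2.2.1.2
  have h1 : 1 ≤ m * m := Nat.mul_pos hm0 hm0
  have h2 : m * m ≤ n * n := Nat.mul_le_mul hmn hmn
  obtain ⟨u, hu⟩ : ∃ u, m * m = u + 1 := ⟨m * m - 1, by omega⟩
  obtain ⟨v, hv⟩ : ∃ v, n * n = u + 1 + v := ⟨n * n - (u + 1), by omega⟩
  rw [hc, hu, hv] at hbound
  have h3 : u + 1 + v - 1 = u + v := by omega
  rw [h3, Nat.add_sub_cancel] at hbound
  nlinarith [hbound]

end Pool.Agent.Helper71.MLog
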