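import Mathlib
import Pool.Agent.Helper71.MLog.Codim

/-!
# Good subspaces of bounded codimension of countable spaces
-/

set_option autoImplicit false

namespace Pool.Agent.Helper71.MLog

open Finset Module Matrix
open Pool.Agent.Y787.AS (RZ Wts')
open Pool.Agent.W254.PA (Hyp)

variable {E : Type} [Field E] [CharZero E]

theorem exists_codim {Lt : Submodule ℚ E} (hL : Hyp Lt) (hw : Wts' ℚ E) (n : ℕ)
    (Λ : Submodule ℚ E) (hΛ : Λ ≤ Lt) (hcount : (Λ : Set E).Countable) (V : Submodule ℚ E)
    (hVΛ : V ≤ Λ) (hVf : Module.Finite ℚ V) (hV : GoodUpTo n V) :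
    ∃ Λ' U : Submodule ℚ E, V ≤ Λ' ∧ Λ' ⊔ U = Λ ∧ Module.Finite ℚ U ∧
      finrank ℚ U ≤ (n * n - 1) ^ 2 ∧ GoodUpTo n Λ' := by
  classical
  set c : ℕ := (n * n - 1) ^ 2 with hc
  obtain ⟨f, hf⟩ := hcount.exists_eq_range ⟨0, Λ.zero_mem⟩
  have hfΛ : ∀ n, f n ∈ Λ := fun n => by
    have : f n ∈ (Λ : Set E) := by rw [hf]; exact ⟨n, rfl⟩
    exact this
  let F : ℕ → Submodule ℚ E := fun i => V ⊔ Submodule.span ℚ (f '' Set.Iio i)
  have hFf : ∀ i, Module.Finite ℚ (F i) := by
    intro i
    have : Module.Finite ℚ (Submodule.span ℚ (f '' Set.Iio i)) :=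
      FiniteDimensional.span_of_finite ℚ ((Set.finite_Iio i).image f)
    change Module.Finite ℚ (V ⊔ Submodule.span ℚ (f '' Set.Iio i) : Submodule ℚ E)
    infer_instance
  have hFΛ : ∀ i, F i ≤ Λ := fun i => sup_le hVΛ (Submodule.span_le.2 (by
    rintro _ ⟨j, -, rfl⟩
    exact hfΛ j))
  have hFmono : Monotone F := fun i j hij => sup_le_sup_left
    (Submodule.span_mono (Set.image_mono (Set.Iio_subset_Iio hij))) _
  have hstep : ∀ (i : ℕ) (G : Submodule ℚ E), ∃ G' : Submodule ℚ E, G ≤ F i → GoodUpTo n G →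
      (G ≤ G' ∧ G' ≤ F (i + 1) ∧ GoodUpTo n G' ∧ finrank ℚ (F (i + 1)) ≤ finrank ℚ G' + c) := by
    intro i G
    by_cases h : G ≤ F i ∧ GoodUpTo n G
    · have := hFf (i + 1)
      obtain ⟨G', hG'⟩ := codim_step hL hw n (F (i + 1)) G ((hFΛ _).trans hΛ)
        (h.1.trans (hFmono (Nat.le_succ i))) h.2
      exact ⟨G', fun _ _ => hG'⟩
    · exact ⟨G, fun h1 h2 => absurd ⟨h1, h2⟩ h⟩
  choose g hg using hstep
  obtain ⟨G, hG0, hGs⟩ : ∃ G : ℕ → Submodule ℚ E, G 0 = V ∧ ∀ i, G (i + 1) = g i (G i) :=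
    ⟨fun i => Nat.rec V (fun i G => g i G) i, rfl, fun i => rfl⟩
  have hGF : ∀ i, G i ≤ F i ∧ GoodUpTo n (G i) ∧ finrank ℚ (F i) ≤ finrank ℚ (G i) + c := by
    intro i
    induction i with
    | zero =>
      rw [hG0]
      refine ⟨le_sup_left, hV, ?_⟩
      have : F 0 = V := by
        have h0 : (Set.Iio 0 : Set ℕ) = ∅ := by ext; simp
        change V ⊔ Submodule.span ℚ (f '' Set.Iio 0) = V
        rw [h0, Set.image_empty, Submodule.span_empty, sup_bot_eq]
      rw [this]
      exact Nat.le_add_right _ _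
    | succ i ih =>
      rw [hGs]
      obtain ⟨-, h2, h3, h4⟩ := hg i (G i) ih.1 ih.2.1
      exact ⟨h2, h3, h4⟩
  have hGmono : Monotone G := monotone_nat_of_le_succ fun i => by
    rw [hGs]
    exact (hg i (G i) (hGF i).1 (hGF i).2.1).1
  set Λ' : Submodule ℚ E := ⨆ i, G i with hΛ'
  have hGΛ' : ∀ i, G i ≤ Λ' := fun i => le_iSup G i
  have hΛ'Λ : Λ' ≤ Λ := iSup_le fun i => (hGF i).1.trans (hFΛ i)
  have hgood : GoodUpTo n Λ' := by
    intro m hm M hM hdet
    obtain ⟨N, hN⟩ := Pool.Agent.W245.PB.mem_chain G hGmono M hM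
    exact (hGF N).2.1 m hm M hN hdet
  -- the quotient
  set Q : Submodule ℚ (E ⧸ Λ') := Λ.map Λ'.mkQ with hQ
  have hrank : Module.rank ℚ Q ≤ c := by
    refine rank_le fun s hs => ?_
    have hu : ∀ x : s, ∃ u : E, u ∈ Λ ∧ Λ'.mkQ u = (x : Q) := by
      intro x
      obtain ⟨u, hu, hu'⟩ := Submodule.mem_map.1 (x : Q).2
      exact ⟨u, hu, hu'⟩
    choose u huΛ hux using hu
    -- all elements in one member of the chain
    have hN : ∀ x : s, ∃ i, u x ∈ F i := by
      intro x
      have : u x ∈ Set.range f := by rw [← hf]; exact huΛ x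
      obtain ⟨j, hj⟩ := this
      exact ⟨j + 1, Submodule.mem_sup_right (Submodule.subset_span ⟨j, by simp, hj⟩)⟩
    choose ν hν using hN
    set N := (Finset.univ : Finset s).sup ν with hNdef
    have huF : ∀ x : s, u x ∈ F N := fun x => hFmono (Finset.le_sup (f := ν) (Finset.mem_univ x)) (hν x)
    have hliQ : LinearIndependent ℚ (fun x : s => Λ'.mkQ (u x)) := by
      have h1 : LinearIndependent ℚ (fun x : s => Q.subtype (x : Q)) :=
        hs.map' Q.subtype (Submodule.ker_subtype Q)
      have h2 : (fun x : s => Λ'.mkQ (u x)) = fun x : s => Q.subtype (x : Q) := funext hux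
      rw [h2]
      exact h1
    have hli : LinearIndependent ℚ u := LinearIndependent.of_comp Λ'.mkQ hliQ
    have hdis : G N ⊓ Submodule.span ℚ (Set.range u) = ⊥ := by
      rw [Submodule.eq_bot_iff]
      rintro x ⟨hx1, hx2⟩
      obtain ⟨a, ha⟩ := (Submodule.mem_span_range_iff_exists_fun ℚ).1 hx2
      have h2 : ∑ i, a i • Λ'.mkQ (u i) = 0 := by
        simp only [← map_smul, ← map_sum]
        rw [ha, Submodule.mkQ_apply, Submodule.Quotient.mk_eq_zero]
        exact hGΛ' N hx1
      have h3 := Fintype.linearIndependent_iff.1 hliQ a h2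
      rw [← ha]
      exact Finset.sum_eq_zero fun i _ => by rw [h3 i, zero_smul]
    have hfinG : Module.Finite ℚ (G N) := by
      have := hFf N
      exact Submodule.finiteDimensional_of_le (hGF N).1
    have hfinU : Module.Finite ℚ (Submodule.span ℚ (Set.range u)) :=
      FiniteDimensional.span_of_finite ℚ (Set.finite_range u)
    have h4 := Submodule.finrank_sup_add_finrank_inf_eq (G N) (Submodule.span ℚ (Set.range u))
    rw [hdis, finrank_bot, add_zero, finrank_span_eq_card hli, Fintype.card_coe] at h4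
    have h5 : finrank ℚ (G N ⊔ Submodule.span ℚ (Set.range u) : Submodule ℚ E) ≤
        finrank ℚ (F N) := by
      have := hFf N
      refine Submodule.finrank_mono (sup_le (hGF N).1 (Submodule.span_le.2 ?_))
      rintro _ ⟨x, rfl⟩
      exact huF x
    have h6 := (hGF N).2.2
    omega
  have hQfin : Module.Finite ℚ Q :=
    Module.rank_lt_aleph0_iff.1 (lt_of_le_of_lt hrank Cardinal.natCast_lt_aleph0)
  have hQc : finrank ℚ Q ≤ c := by
    exact finrank_le_of_rank_le hrank
  set b := Module.finBasis ℚ Q with hb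
  have hw' : ∀ i, ∃ u : E, u ∈ Λ ∧ Λ'.mkQ u = (b i : Q) := by
    intro i
    obtain ⟨u, hu, hu'⟩ := Submodule.mem_map.1 (b i).2
    exact ⟨u, hu, hu'⟩
  choose u huΛ hub using hw'
  refine ⟨Λ', Submodule.span ℚ (Set.range u), ?_, ?_, FiniteDimensional.span_of_finite ℚ (Set.finite_range u), ?_, hgood⟩
  · rw [← hG0]
    exact hGΛ' 0
  · apply le_antisymm
    · refine sup_le hΛ'Λ (Submodule.span_le.2 ?_)
      rintro _ ⟨i, rfl⟩
      exact huΛ i
    · intro x hx
      have h1 : Λ'.mkQ x ∈ Q := Submodule.mem_map_of_mem hx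
      have h2 := congrArg Q.subtype (b.sum_repr ⟨Λ'.mkQ x, h1⟩)
      rw [map_sum] at h2
      simp only [map_smul, Submodule.subtype_apply, ← hub] at h2
      simp only [← map_smul, ← map_sum] at h2
      have h3 : x - ∑ i, (b.repr ⟨Λ'.mkQ x, h1⟩ i) • u i ∈ Λ' := by
        rw [← Submodule.Quotient.mk_eq_zero, ← Submodule.mkQ_apply, map_sub, h2, sub_self]
      rw [← sub_add_cancel x (∑ i, (b.repr ⟨Λ'.mkQ x, h1⟩ i) • u i)]
      exact Submodule.add_mem_sup h3 (Submodule.sum_mem _ fun i _ =>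
        Submodule.smul_mem _ _ (Submodule.subset_span ⟨i, rfl⟩))
  · refine (finrank_range_le_card u).trans ?_
    rw [Fintype.card_fin]
    exact hQc

/-- from sizes to ranks -/
theorem rz_of_rank {r N : ℕ} {V : Submodule ℚ E} (hV : GoodUpTo (r + 1) V)
    (M : Matrix (Fin N) (Fin N) E) (hM : ∀ i j, M i j ∈ V) (hdet : M.det = 0)
    (hr : M.rank ≤ r) : RZ ℚ M := by
  classical
  rcases Nat.lt_or_ge (r + 1) N with h | h
  · set e : Fin (r + 1) → Fin N := Fin.castLE h.le with he
    have he' : Function.Injective e := Fin.castLE_injective h.le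
    have hd : (M.submatrix e e).det = 0 := by
      by_contra h0
      have h1 := Matrix.rank_of_det_ne_zero h0
      rw [Fintype.card_fin] at h1
      have h2 : (M.submatrix e e).rank ≤ M.rank := by
        rw [Pool.Agent.Y787.AS.sub_eq]
        exact (Matrix.rank_mul_le_left _ _).trans (Matrix.rank_mul_le_right _ _)
      omega
    obtain ⟨w, v, hw, hv, hwv⟩ := hV (r + 1) le_rfl (M.submatrix e e) (fun i j => hM _ _) hd
    refine ⟨fun i => if hi : ∃ a, e a = i then w hi.choose else 0,
      fun i => if hi : ∃ a, e a = i then v hi.choose else 0, ?_, ?_, ?_⟩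
    · intro h0
      apply hw
      funext a
      have h1 := congrFun h0 (e a)
      have h2 : ∃ b, e b = e a := ⟨a, rfl⟩
      rw [dif_pos h2, he' h2.choose_spec] at h1
      exact h1
    · intro h0
      apply hv
      funext a
      have h1 := congrFun h0 (e a)
      have h2 : ∃ b, e b = e a := ⟨a, rfl⟩
      rw [dif_pos h2, he' h2.choose_spec] at h1
      exact h1
    · rw [← hwv]
      have key : ∀ (w : Fin (r + 1) → ℚ) (φ : Fin N → E),
          ∑ i, algebraMap ℚ E (if hi : ∃ a, e a = i then w hi.choose else 0) * φ i =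
          ∑ a, algebraMap ℚ E (w a) * φ (e a) := by
        intro w φ
        have h3 : ∑ a, algebraMap ℚ E (w a) * φ (e a) = ∑ a,
            (fun i => algebraMap ℚ E (if hi : ∃ a, e a = i then w hi.choose else 0) * φ i) (e a) := by
          refine Finset.sum_congr rfl fun a _ => ?_
          have h2 : ∃ b, e b = e a := ⟨a, rfl⟩
          simp only
          rw [dif_pos h2, he' h2.choose_spec]
        rw [h3, ← Finset.sum_image (f := fun i => algebraMap ℚ E
          (if hi : ∃ a, e a = i then w hi.choose else 0) * φ i) (g := e)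
          (fun a _ b _ h => he' h)]
        refine (Finset.sum_subset (Finset.subset_univ _) fun i _ hi => ?_).symm
        have h4 : ¬ ∃ a, e a = i := by
          rintro ⟨a, ha⟩
          exact hi (Finset.mem_image.2 ⟨a, Finset.mem_univ _, ha⟩)
        rw [dif_neg h4, map_zero, zero_mul]
      have e1 : ∀ (w v : Fin N → ℚ), ∑ i, ∑ j, algebraMap ℚ E (w i) * M i j * algebraMap ℚ E (v j) =
          ∑ i, algebraMap ℚ E (w i) * ∑ j, algebraMap ℚ E (v j) * M i j := by
        intro w v
        refine Finset.sum_congr rfl fun i _ => ?_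
        rw [Finset.mul_sum]
        exact Finset.sum_congr rfl fun j _ => by ring
      rw [e1]
      simp only [key v]
      rw [key w]
      refine Finset.sum_congr rfl fun i _ => ?_
      rw [Finset.mul_sum]
      refine Finset.sum_congr rfl fun j _ => ?_
      rw [Matrix.submatrix_apply]
      ring
  · exact hV N h M hM hdet

end Pool.Agent.Helper71.MLog
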