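import Mathlib
import Pool.Agent.Helper71.MLog.Codim

/-!
# Generic tuples
-/

set_option autoImplicit false

namespace Pool.Agent.Helper71.MLog

open Finset Module Matrix Filter
open Pool.Agent.Y787.AS (RZ NoLine GE ge ge_eq ge_eq_zero Wts' det_dim)
open Pool.Agent.W254.PA (Hyp)

/-- a sequence of points of a dense set together with arbitrary generic points -/
theorem exists_generic_mem {ι κ X : Type} [Finite ι] [Finite κ] (B : Set X) (f : X → ι → ℚ)
    (hB : ∀ Ψ : MvPolynomial ι ℚ, Ψ ≠ 0 → ∃ x ∈ B, MvPolynomial.eval (f x) Ψ ≠ 0) :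
    ∃ (x : ℕ → X) (p : ℕ → κ → ℚ), (∀ j, x j ∈ B) ∧
      ∀ Ψ : MvPolynomial (ι ⊕ κ) ℚ, Ψ ≠ 0 →
        ∀ᶠ j in Filter.atTop, MvPolynomial.eval (Sum.elim (f (x j)) (p j)) Ψ ≠ 0 := by
  classical
  have hcount : Countable (MvPolynomial (ι ⊕ κ) ℚ) := by
    rw [← Cardinal.mk_le_aleph0_iff]
    refine (MvPolynomial.cardinalMk_le_max).trans ?_
    simp
  obtain ⟨F, hF⟩ := exists_surjective_nat (MvPolynomial (ι ⊕ κ) ℚ)
  have h : ∀ j : ℕ, ∃ x ∈ B, ∃ p : κ → ℚ,
      MvPolynomial.eval (Sum.elim (f x) p)
        (∏ i ∈ range (j + 1), if F i = 0 then 1 else F i) ≠ 0 := by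
    intro j
    set Q₀ : MvPolynomial (ι ⊕ κ) ℚ := ∏ i ∈ range (j + 1), if F i = 0 then 1 else F i with hQ
    have hQ0 : Q₀ ≠ 0 := by
      intro h1
      rw [hQ, Finset.prod_eq_zero_iff] at h1
      obtain ⟨i, -, hi⟩ := h1
      split_ifs at hi with h0
      · exact one_ne_zero hi
      · exact h0 hi
    obtain ⟨t, ht⟩ : ∃ t : ι ⊕ κ → ℚ, MvPolynomial.eval t Q₀ ≠ 0 := by
      by_contra hcon
      push Not at hcon
      exact hQ0 (MvPolynomial.funext fun x => by rw [hcon x, map_zero])
    -- specialise the second group of variables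
    set Φ : MvPolynomial ι ℚ := MvPolynomial.aeval
      (Sum.elim (fun i => (MvPolynomial.X i : MvPolynomial ι ℚ))
        (fun k => MvPolynomial.C (t (Sum.inr k)))) Q₀ with hΦ
    have heval : ∀ s : ι → ℚ, MvPolynomial.eval s Φ =
        MvPolynomial.eval (Sum.elim s (fun k => t (Sum.inr k))) Q₀ := by
      intro s
      have h1 : (MvPolynomial.eval s).comp (MvPolynomial.aeval (R := ℚ)
          (Sum.elim (fun i => (MvPolynomial.X i : MvPolynomial ι ℚ))
          (fun k => MvPolynomial.C (t (Sum.inr k))))).toRingHom =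
          MvPolynomial.eval (Sum.elim s (fun k => t (Sum.inr k))) := by
        apply MvPolynomial.ringHom_ext
        · intro r
          simp
        · intro i
          rcases i with i | i
          · simp
          · simp
      exact congrArg (fun g => g Q₀) h1
    have hΦ0 : Φ ≠ 0 := by
      intro h0
      apply ht
      have h1 := heval (fun i => t (Sum.inl i))
      rw [h0, map_zero] at h1
      have h2 : Sum.elim (fun i => t (Sum.inl i)) (fun k => t (Sum.inr k)) = t := by
        funext r
        rcases r with r | r <;> rfl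
      rw [h2] at h1
      exact h1.symm
    obtain ⟨x, hx, hx'⟩ := hB Φ hΦ0
    exact ⟨x, hx, fun k => t (Sum.inr k), by rw [← heval]; exact hx'⟩
  choose x hx p hp using h
  refine ⟨x, p, hx, fun Ψ hΨ => ?_⟩
  obtain ⟨i, rfl⟩ := hF Ψ
  filter_upwards [Filter.eventually_ge_atTop i] with j hj
  have h1 := hp j
  rw [map_prod, Finset.prod_ne_zero_iff] at h1
  have h2 := h1 i (Finset.mem_range.2 (by omega))
  rwa [if_neg hΨ] at h2

/-- the elements algebraic over a subring form a field -/
def algField {K : Type} [Field K] [Algebra ℚ K] (R : Subalgebra ℚ K) : Subfield K where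
  carrier := {x | IsAlgebraic R x}
  mul_mem' := fun ha hb => IsAlgebraic.mul ha hb
  one_mem' := isAlgebraic_one
  add_mem' := fun ha hb => IsAlgebraic.add ha hb
  zero_mem' := isAlgebraic_zero
  neg_mem' := fun ha => IsAlgebraic.neg ha
  inv_mem' := fun _ ha => IsAlgebraic.inv ha

theorem mem_algField {K : Type} [Field K] [Algebra ℚ K] (R : Subalgebra ℚ K) (x : K) :
    x ∈ algField R ↔ IsAlgebraic R x := Iff.rfl

/-- solving linear equations over a subfield -/
theorem solve_mem {K : Type} [Field K] (L : Subfield K) {m : ℕ} (P : Matrix (Fin m) (Fin m) K)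
    (hP : ∀ i j, P i j ∈ L) (hdet : P.det ≠ 0) (x y : Fin m → K) (hy : ∀ i, y i ∈ L)
    (h : P *ᵥ x = y) (i : Fin m) : x i ∈ L := by
  classical
  set P' : Matrix (Fin m) (Fin m) L := Matrix.of fun i j => ⟨P i j, hP i j⟩ with hP'
  set y' : Fin m → L := fun i => ⟨y i, hy i⟩ with hy'
  have h1 : P'.map L.subtype = P := by
    ext i j
    rfl
  have h2 : L.subtype P'.det = P.det := by
    rw [RingHom.map_det, RingHom.mapMatrix_apply, h1]
  have hu' : IsUnit P'.det := isUnit_iff_ne_zero.2 fun h0 => hdet (by rw [← h2, h0, map_zero])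
  have hu : IsUnit P.det := isUnit_iff_ne_zero.2 hdet
  set x' : Fin m → L := P'⁻¹ *ᵥ y' with hx'
  have h3 : P' *ᵥ x' = y' := by
    rw [hx', Matrix.mulVec_mulVec, Matrix.mul_nonsing_inv _ hu', Matrix.one_mulVec]
  have h4 : P *ᵥ (fun i => (x' i : K)) = y := by
    funext k
    have h5 := congrArg L.subtype (congrFun h3 k)
    simp only [Matrix.mulVec, dotProduct, map_sum, map_mul] at h5
    exact h5
  have h6 : x = fun i => (x' i : K) := by
    have h7 : P⁻¹ *ᵥ (P *ᵥ x) = P⁻¹ *ᵥ (P *ᵥ (fun i => (x' i : K))) := by rw [h, h4]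
    rw [Matrix.mulVec_mulVec, Matrix.mulVec_mulVec, Matrix.nonsing_inv_mul _ hu,
      Matrix.one_mulVec, Matrix.one_mulVec] at h7
    exact h7
  rw [h6]
  exact (x' i).2

/-- a regular minor of a matrix with independent rows -/
theorem exists_minor {m n : ℕ} (B : Matrix (Fin m) (Fin n) ℚ)
    (hB : ∀ w : Fin m → ℚ, (∀ k, ∑ i, w i * B i k = 0) → w = 0) :
    ∃ e : Fin m → Fin n, Function.Injective e ∧ (Matrix.of fun i i' => B i (e i')).det ≠ 0 := by
  classical
  have hspan : Submodule.span ℚ (Set.range fun k => fun i => B i k) = ⊤ := by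
    by_contra hne
    obtain ⟨f, hf0, hf⟩ := Submodule.exists_le_ker_of_lt_top _ (lt_top_iff_ne_top.2 hne)
    apply hf0
    have h1 : (fun i => f (Pi.single i 1)) = 0 := by
      apply hB
      intro k
      have h2 : f (fun i => B i k) = 0 := by
        have := hf (Submodule.subset_span ⟨k, rfl⟩)
        exact this
      have h3 : (fun i => B i k) = ∑ i, B i k • (Pi.single i (1 : ℚ) : Fin m → ℚ) := by
        funext i
        simp [Finset.sum_apply, Pi.single_apply]
      rw [h3, map_sum] at h2
      rw [← h2]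
      refine Finset.sum_congr rfl fun i _ => ?_
      rw [map_smul, smul_eq_mul, mul_comm]
    refine LinearMap.pi_ext' fun i => LinearMap.ext_ring ?_
    have h3 := congrFun h1 i
    simpa using h3
  have hfr : finrank ℚ (Submodule.span ℚ (Set.range fun k => fun i : Fin m => B i k)) = m := by
    rw [hspan, finrank_top, finrank_fintype_fun_eq_card, Fintype.card_fin]
  have key : ∀ m' : ℕ, finrank ℚ (Submodule.span ℚ (Set.range fun k => fun i : Fin m => B i k)) = m' →
      ∃ f : Fin m' → (Fin m → ℚ), (∀ i, f i ∈ Set.range fun k => fun i : Fin m => B i k) ∧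
        LinearIndependent ℚ f := by
    rintro m' rfl
    obtain ⟨f, hf, -, hli⟩ := Submodule.exists_fun_fin_finrank_span_eq ℚ
      (Set.range fun k => fun i : Fin m => B i k)
    exact ⟨f, hf, hli⟩
  obtain ⟨f, hf, hli⟩ := key m hfr
  choose e he using hf
  refine ⟨e, fun a b hab => hli.injective ?_, ?_⟩
  · rw [← he a, ← he b, hab]
  · intro h0
    obtain ⟨v, hv, hv0⟩ := Matrix.exists_mulVec_eq_zero_iff.2 h0
    apply hv
    have h1 := Fintype.linearIndependent_iff.1 hli v (by
      funext i
      rw [Finset.sum_apply, Pi.zero_apply]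
      have h2 := congrFun hv0 i
      simp only [Matrix.mulVec, dotProduct, Matrix.of_apply, Pi.zero_apply] at h2
      rw [← h2]
      refine Finset.sum_congr rfl fun a _ => ?_
      rw [Pi.smul_apply, smul_eq_mul, mul_comm, ← he a])
    funext i
    exact h1 i

end Pool.Agent.Helper71.MLog
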