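import Mathlib
import Pool.Graph.R_seed8.Y787.AS.Main
import Pool.Agent.Helper71.MLog.Tup

/-!
# Normalised violations
-/

set_option autoImplicit false

namespace Pool.Agent.Helper71.MLog

open Finset Module Matrix Filter
open Pool.Agent.Y787.AS (RZ NoLine GE ge ge_eq ge_eq_zero Wts' fam_coord Big RE)
open Pool.Agent.W254.PA (Hyp)

section normal

variable {m s : ℕ}

/-- no common rational zero -/
def NoZero (A : Fin s → Matrix (Fin m) (Fin m) ℚ) : Prop :=
  ∀ w v : Fin m → ℚ, w ≠ 0 → v ≠ 0 → ∃ k, w ⬝ᵥ (A k *ᵥ v) ≠ 0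

theorem NoZero.mul {A : Fin s → Matrix (Fin m) (Fin m) ℚ} (hA : NoZero A)
    {g h : Matrix (Fin m) (Fin m) ℚ} (hg : g.det ≠ 0) (hh : h.det ≠ 0) :
    NoZero (fun k => g * A k * h) := by
  classical
  intro w v hw hv
  obtain ⟨k, hk⟩ := hA (w ᵥ* g) (h *ᵥ v) (fun h0 => hw (by
      have h1 : (w ᵥ* g) ᵥ* g⁻¹ = w := by
        rw [Matrix.vecMul_vecMul, Matrix.mul_nonsing_inv _ (isUnit_iff_ne_zero.2 hg),
          Matrix.vecMul_one]
      rw [← h1, h0, Matrix.zero_vecMul])) (fun h0 => hv (by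
      have h1 : h⁻¹ *ᵥ (h *ᵥ v) = v := by
        rw [Matrix.mulVec_mulVec, Matrix.nonsing_inv_mul _ (isUnit_iff_ne_zero.2 hh),
          Matrix.one_mulVec]
      rw [← h1, h0, Matrix.mulVec_zero]))
  refine ⟨k, ?_⟩
  rw [← Matrix.mulVec_mulVec, ← Matrix.mulVec_mulVec, Matrix.dotProduct_mulVec]
  exact hk

theorem inv_det_ne {g : Matrix (Fin m) (Fin m) ℚ} (hg : g.det ≠ 0) : g⁻¹.det ≠ 0 := by
  intro h0
  have h1 := congrArg Matrix.det (Matrix.mul_nonsing_inv g (isUnit_iff_ne_zero.2 hg))
  rw [Matrix.det_mul, h0, mul_zero, Matrix.det_one] at h1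
  exact zero_ne_one h1

/-- the normalised entries -/
def exc (e₂ e₃ : Fin m → Fin s) (z : Fin m) : Finset (Fin s × Fin m × Fin m) :=
  (Finset.univ.image fun q : Fin m × Fin m => (e₂ q.1, q.2, z)) ∪
    ((Finset.univ ×ˢ (Finset.univ.erase z)).image fun q : Fin m × Fin m => (e₃ q.1, z, q.2))

theorem exc_card {e₂ e₃ : Fin m → Fin s} (h₂ : Function.Injective e₂)
    (h₃ : Function.Injective e₃) (z : Fin m) : (exc e₂ e₃ z).card = m * m + m * (m - 1) := by
  classical
  rw [exc, Finset.card_union_of_disjoint, Finset.card_image_of_injective,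
    Finset.card_image_of_injective, Finset.card_univ, Finset.card_product,
    Finset.card_erase_of_mem (Finset.mem_univ _)]
  · simp
  · rintro ⟨a, b⟩ ⟨a', b'⟩ h
    simp only [Prod.mk.injEq, true_and] at h
    rw [h₃ h.1, h.2]
  · rintro ⟨a, b⟩ ⟨a', b'⟩ h
    simp only [Prod.mk.injEq, and_true] at h
    rw [h₂ h.1, h.2]
  · rw [Finset.disjoint_left]
    intro q hq hq'
    obtain ⟨a, -, rfl⟩ := Finset.mem_image.1 hq
    obtain ⟨b, hb, hb'⟩ := Finset.mem_image.1 hq'
    simp only [Prod.mk.injEq] at hb'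
    rw [Finset.mem_product, Finset.mem_erase] at hb
    exact hb.2.1 hb'.2.2

/-- **The normal form.** -/
theorem exists_normal (z : Fin m) (A : Fin s → Matrix (Fin m) (Fin m) ℚ) (hA : NoZero A) :
    ∃ (e₂ e₃ : Fin m → Fin s) (f : Fin s × Fin m × Fin m → Bool)
      (g h : Matrix (Fin m) (Fin m) ℚ), Function.Injective e₂ ∧ Function.Injective e₃ ∧
      g.det ≠ 0 ∧ h.det ≠ 0 ∧ ∀ q ∈ exc e₂ e₃ z,
        (g * A q.1 * h) q.2.1 q.2.2 = if f q then 1 else 0 := by
  classical
  obtain ⟨e₂, he₂, hd₂⟩ := exists_minor (Matrix.of fun i k => A k i z) (by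
    intro w hw
    by_contra hw0
    obtain ⟨k, hk⟩ := hA w (Pi.single z 1) hw0 (by
      intro h0
      have := congrFun h0 z
      rw [Pi.single_eq_same] at this
      exact one_ne_zero this)
    apply hk
    rw [Matrix.mulVec_single_one]
    exact hw k)
  set C : Matrix (Fin m) (Fin m) ℚ := Matrix.of fun i i' => A (e₂ i') i z with hC
  have hCd : C.det ≠ 0 := hd₂
  set g : Matrix (Fin m) (Fin m) ℚ := C⁻¹ with hg
  have hgd : g.det ≠ 0 := inv_det_ne hCd
  set A₁ : Fin s → Matrix (Fin m) (Fin m) ℚ := fun k => g * A k with hA₁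
  have hA₁z : NoZero A₁ := by
    have h1 := hA.mul hgd (h := 1) (by rw [Matrix.det_one]; exact one_ne_zero)
    simp only [Matrix.mul_one] at h1
    exact h1
  have hcol : ∀ i i', A₁ (e₂ i') i z = if i = i' then 1 else 0 := by
    intro i i'
    have h1 : g * C = 1 := Matrix.nonsing_inv_mul _ (isUnit_iff_ne_zero.2 hCd)
    have h2 := congrFun (congrFun h1 i) i'
    rw [Matrix.one_apply] at h2
    rw [← h2]
    rfl
  obtain ⟨e₃, he₃, hd₃⟩ := exists_minor (Matrix.of fun j k => A₁ k z j) (by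
    intro v hv
    by_contra hv0
    obtain ⟨k, hk⟩ := hA₁z (Pi.single z 1) v (by
      intro h0
      have := congrFun h0 z
      rw [Pi.single_eq_same] at this
      exact one_ne_zero this) hv0
    apply hk
    rw [single_one_dotProduct]
    rw [← hv k]
    simp only [Matrix.mulVec, dotProduct, Matrix.of_apply]
    exact Finset.sum_congr rfl fun j _ => mul_comm _ _)
  set Q : Matrix (Fin m) (Fin m) ℚ := Matrix.of fun i' j => A₁ (e₃ i') z j with hQ
  have hQd : Q.det ≠ 0 := by
    rw [← Matrix.det_transpose]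
    exact hd₃
  obtain ⟨i₀, hi₀⟩ : ∃ i₀, Q i₀ z ≠ 0 := by
    by_contra hcon
    push Not at hcon
    exact hQd (Matrix.det_eq_zero_of_column_eq_zero z hcon)
  set σ : Equiv.Perm (Fin m) := Equiv.swap z i₀ with hσ
  set N : Matrix (Fin m) (Fin m) ℚ := Matrix.of fun i' j =>
    if j = z then Q i' z else if i' = σ j then 1 else 0 with hN
  have hNd : N.det ≠ 0 := by
    intro h0
    obtain ⟨u, hu, hu0⟩ := Matrix.exists_mulVec_eq_zero_iff.2 h0
    apply hu
    have h1 : ∀ i', Q i' z * u z + ∑ j ∈ Finset.univ.erase z,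
        (if i' = σ j then 1 else 0) * u j = 0 := by
      intro i'
      have h2 := congrFun hu0 i'
      simp only [Matrix.mulVec, dotProduct, Pi.zero_apply] at h2
      rw [← Finset.add_sum_erase _ _ (Finset.mem_univ z)] at h2
      refine Eq.trans ?_ h2
      congr 1
      · rw [hN, Matrix.of_apply, if_pos rfl]
      · refine Finset.sum_congr rfl fun j hj => ?_
        rw [hN, Matrix.of_apply, if_neg (Finset.ne_of_mem_erase hj)]
    have huz : u z = 0 := by
      have h2 := h1 i₀
      rw [Finset.sum_eq_zero, add_zero] at h2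
      · exact (mul_eq_zero.1 h2).resolve_left hi₀
      · intro j hj
        rw [if_neg, zero_mul]
        intro h3
        have h4 : σ z = i₀ := Equiv.swap_apply_left _ _
        rw [← h4] at h3
        exact Finset.ne_of_mem_erase hj (σ.injective h3).symm
    funext j
    by_cases hj : j = z
    · rw [hj]
      exact huz
    · have h2 := h1 (σ j)
      rw [huz, mul_zero, zero_add, Finset.sum_eq_single j] at h2
      · rw [if_pos rfl, one_mul] at h2
        exact h2
      · intro j' _ hj'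
        rw [if_neg, zero_mul]
        intro h3
        exact hj' (σ.injective h3).symm
      · intro h3
        exact absurd (Finset.mem_erase.2 ⟨hj, Finset.mem_univ _⟩) h3
  set h : Matrix (Fin m) (Fin m) ℚ := Q⁻¹ * N with hh
  have hhd : h.det ≠ 0 := by
    rw [hh, Matrix.det_mul]
    exact mul_ne_zero (inv_det_ne hQd) hNd
  have hQh : Q * h = N := by
    rw [hh, ← Matrix.mul_assoc, Matrix.mul_nonsing_inv _ (isUnit_iff_ne_zero.2 hQd),
      Matrix.one_mul]
  have hhz : ∀ i, h i z = if i = z then 1 else 0 := by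
    intro i
    have h1 : Q⁻¹ * Q = 1 := Matrix.nonsing_inv_mul _ (isUnit_iff_ne_zero.2 hQd)
    have h2 := congrFun (congrFun h1 i) z
    rw [Matrix.one_apply] at h2
    rw [← h2, hh, Matrix.mul_apply, Matrix.mul_apply]
    refine Finset.sum_congr rfl fun a _ => ?_
    congr 1
    rw [hN, Matrix.of_apply, if_pos rfl]
  refine ⟨e₂, e₃, fun q => if q.2.2 = z then decide (q.1 = e₂ q.2.1)
    else decide (q.1 = e₃ (σ q.2.2)), g, h, he₂, he₃, hgd, hhd, ?_⟩
  intro q hq
  rcases Finset.mem_union.1 hq with hq | hq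
  · obtain ⟨⟨a, b⟩, -, rfl⟩ := Finset.mem_image.1 hq
    simp only [if_true]
    have h1 : (g * A (e₂ a) * h) b z = A₁ (e₂ a) b z := by
      rw [Matrix.mul_apply, Finset.sum_eq_single z]
      · rw [hhz, if_pos rfl, mul_one]
      · intro c _ hc
        rw [hhz, if_neg hc, mul_zero]
      · intro hc
        exact absurd (Finset.mem_univ _) hc
    rw [h1, hcol]
    by_cases hab : b = a
    · rw [hab]
      simp
    · rw [if_neg hab, if_neg]
      simp only [decide_eq_true_eq]
      intro h2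
      exact hab (he₂ h2).symm
  · obtain ⟨⟨a, b⟩, hab, rfl⟩ := Finset.mem_image.1 hq
    rw [Finset.mem_product, Finset.mem_erase] at hab
    have hbz : b ≠ z := hab.2.1
    simp only [if_neg hbz]
    have h1 : (g * A (e₃ a) * h) z b = (Q * h) a b := by
      rw [Matrix.mul_apply, Matrix.mul_apply]
      rfl
    rw [h1, hQh, hN, Matrix.of_apply, if_neg hbz]
    by_cases h2 : a = σ b
    · rw [if_pos h2, if_pos]
      simp [h2]
    · rw [if_neg h2, if_neg]
      simp only [decide_eq_true_eq]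
      intro h3
      exact h2 (he₃ h3)

end normal

end Pool.Agent.Helper71.MLog
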