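import Mathlib
import Pool.Graph.R_seed8.Y787.AS.Det
import Pool.Agent.Helper71.MLog.Nrm
import Pool.Agent.Helper71.MLog.Prim

/-!
# Normalised violations: dimension
-/

set_option autoImplicit false

namespace Pool.Agent.Helper71.MLog

open Finset Module Matrix Filter
open Pool.Agent.Y787.AS (RZ NoLine GE ge ge_eq ge_eq_zero Wts' fam_coord Big RE)
open Pool.Agent.W254.PA (Hyp)

variable {E : Type} [Field E] [CharZero E]

/-- the point with the coordinates `b` on a matrix pencil -/
noncomputable def pen {R s m : ℕ} (l : Fin R → E) (b : Fin s → Fin R → ℚ)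
    (A : Fin s → Matrix (Fin m) (Fin m) ℚ) : Matrix (Fin m) (Fin m) E :=
  Matrix.of fun i i' => ∑ k, (∑ j, algebraMap ℚ E (b k j) * l j) * algebraMap ℚ E (A k i i')

/-- the normalised violations with the coordinates `b` -/
def NV {R s m : ℕ} (l : Fin R → E) (Exc : Finset (Fin s × Fin m × Fin m))
    (f : Fin s × Fin m × Fin m → Bool) (b : Fin s → Fin R → ℚ) : Prop :=
  ∃ A : Fin s → Matrix (Fin m) (Fin m) ℚ, LinearIndependent ℚ A ∧
    (∀ q ∈ Exc, A q.1 q.2.1 q.2.2 = if f q then 1 else 0) ∧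
    (pen l b A).det = 0 ∧ NoLine ℚ (pen l b A)

theorem nv_coord {Lt : Submodule ℚ E} (hL : Hyp Lt) (hw : Wts' ℚ E) {R s m τ : ℕ}
    (l : Fin R → E) (hl : ∀ j, l j ∈ Lt) (hli : LinearIndependent ℚ l)
    (Exc : Finset (Fin s × Fin m × Fin m)) (f : Fin s × Fin m × Fin m → Bool)
    (hτ : τ + Exc.card = s * (m * m))
    (φ : Fin (τ + s * (s - 1) + 1) → ((Fin s × Fin R → ℚ) →ₗ[ℚ] ℚ)) :
    ∃ P : MvPolynomial (Fin (τ + s * (s - 1) + 1)) ℚ, P ≠ 0 ∧
      ∀ b : Fin s → Fin R → ℚ, NV l Exc f b →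
        MvPolynomial.eval (fun i => φ i (fun p => b p.1 p.2)) P = 0 := by
  classical
  have hcard : Fintype.card {q : Fin s × Fin m × Fin m // q ∉ Exc} = τ := by
    have h1 := Fintype.card_subtype_compl (fun q : Fin s × Fin m × Fin m => q ∈ Exc)
    rw [Fintype.card_coe] at h1
    rw [h1]
    simp only [Fintype.card_prod, Fintype.card_fin]
    omega
  set idx : {q : Fin s × Fin m × Fin m // q ∉ Exc} ≃ Fin τ := Fintype.equivFinOfCardEq hcard
    with hidx
  let ent : Fin s × Fin m × Fin m → MvPolynomial (Fin s ⊕ Fin τ) E := fun q =>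
    if h : q ∈ Exc then MvPolynomial.C (if f q then 1 else 0)
    else MvPolynomial.X (Sum.inr (idx ⟨q, h⟩))
  let F : Fin 1 → MvPolynomial (Fin s ⊕ Fin τ) E := fun _ =>
    (Matrix.of fun i i' : Fin m => ∑ k : Fin s, (MvPolynomial.X (Sum.inl k) :
      MvPolynomial (Fin s ⊕ Fin τ) E) * ent (k, i, i')).det
  -- evaluation
  have hF : ∀ (A : Fin s → Matrix (Fin m) (Fin m) ℚ), (∀ q ∈ Exc, A q.1 q.2.1 q.2.2 =
      if f q then 1 else 0) → ∀ y : Fin s → E,
      MvPolynomial.eval (Sum.elim y (fun a => algebraMap ℚ E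
        (A (idx.symm a).1.1 (idx.symm a).1.2.1 (idx.symm a).1.2.2))) (F 0) =
      (Matrix.of fun i i' => ∑ k, y k * algebraMap ℚ E (A k i i')).det := by
    intro A hA y
    have hent : ∀ q, MvPolynomial.eval (Sum.elim y (fun a => algebraMap ℚ E
        (A (idx.symm a).1.1 (idx.symm a).1.2.1 (idx.symm a).1.2.2))) (ent q) =
        algebraMap ℚ E (A q.1 q.2.1 q.2.2) := by
      intro q
      by_cases hq : q ∈ Exc
      · simp only [ent, dif_pos hq, MvPolynomial.eval_C]
        rw [hA q hq]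
        split_ifs <;> simp
      · simp only [ent, dif_neg hq, MvPolynomial.eval_X, Sum.elim_inr, Equiv.symm_apply_apply]
    change MvPolynomial.eval _ (Matrix.det _) = _
    rw [RingHom.map_det]
    congr 1
    ext i i'
    rw [RingHom.mapMatrix_apply, Matrix.map_apply, Matrix.of_apply, Matrix.of_apply, map_sum]
    refine Finset.sum_congr rfl fun k _ => ?_
    rw [map_mul, MvPolynomial.eval_X, Sum.elim_inl, hent]
  obtain ⟨P, hP, hP0⟩ := fam_coord (m := s) (N := R) (q := τ + s * (s - 1) + 1) (τ := τ) (r := 1)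
    (ρ := 0) hL hw l hl hli F (by
      intro ρ' hρ'
      obtain rfl : ρ' = 0 := by omega
      rw [zero_mul, Nat.sub_zero]
      omega) φ
  refine ⟨P, hP, ?_⟩
  rintro b ⟨A, hAli, hAf, hdet, hline⟩
  refine hP0 b (fun a => A (idx.symm a).1.1 (idx.symm a).1.2.1 (idx.symm a).1.2.2) ?_ ?_
  · intro u
    obtain rfl : u = 0 := Subsingleton.elim _ _
    rw [hF A hAf]
    exact hdet
  · rintro ⟨Rr, hRr, h1⟩
    have h2 : Rr ≠ ⊥ := by
      rintro rfl
      rw [finrank_bot] at hRr
      exact lt_irrefl _ hRr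
    obtain ⟨c, hc, hc0⟩ := Submodule.exists_mem_ne_zero_of_ne_bot h2
    obtain ⟨x, hx⟩ := hline (∑ k, c k • A k) (fun h0 => hc0 (by
      funext k
      exact Fintype.linearIndependent_iff.1 hAli c h0 k))
    apply hx
    have h3 := h1 0 (x • fun p => algebraMap ℚ E (c p))
      (Submodule.smul_mem _ _ (Submodule.subset_span ⟨c, hc, rfl⟩))
    rw [hF A hAf] at h3
    rw [← h3]
    congr 1
    ext i i'
    simp only [pen, Matrix.add_apply, Matrix.of_apply, Matrix.smul_apply, Matrix.map_apply,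
      Matrix.sum_apply, smul_eq_mul, map_sum, map_mul, Pi.smul_apply]
    rw [Finset.mul_sum, ← Finset.sum_add_distrib]
    exact Finset.sum_congr rfl fun k _ => by ring

theorem noLine_mul₂ {m : ℕ} {g h : Matrix (Fin m) (Fin m) ℚ} (hg : g.det ≠ 0) (hh : h.det ≠ 0)
    {M : Matrix (Fin m) (Fin m) E} (hM : NoLine ℚ M) :
    NoLine ℚ (g.map (algebraMap ℚ E) * M * h.map (algebraMap ℚ E)) := by
  classical
  intro B hB
  have hgu : IsUnit g.det := isUnit_iff_ne_zero.2 hg
  have hhu : IsUnit h.det := isUnit_iff_ne_zero.2 hh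
  have key : g * (g⁻¹ * B * h⁻¹) * h = B := by
    have h1 : g * (g⁻¹ * B * h⁻¹) * h = (g * g⁻¹) * B * (h⁻¹ * h) := by
      simp only [Matrix.mul_assoc]
    rw [h1, Matrix.mul_nonsing_inv _ hgu, Matrix.nonsing_inv_mul _ hhu, Matrix.one_mul,
      Matrix.mul_one]
  obtain ⟨x, hx⟩ := hM (g⁻¹ * B * h⁻¹) (by
    intro h0
    apply hB
    rw [← key, h0, Matrix.mul_zero, Matrix.zero_mul])
  refine ⟨x, ?_⟩
  have h2 : g.map (algebraMap ℚ E) * M * h.map (algebraMap ℚ E) + x • B.map (algebraMap ℚ E) =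
      g.map (algebraMap ℚ E) * (M + x • (g⁻¹ * B * h⁻¹).map (algebraMap ℚ E)) *
        h.map (algebraMap ℚ E) := by
    rw [Matrix.mul_add, Matrix.add_mul, Matrix.mul_smul, Matrix.smul_mul, ← Matrix.map_mul,
      ← Matrix.map_mul, key]
  have hdm : ∀ {R : Matrix (Fin m) (Fin m) ℚ}, R.det ≠ 0 → (R.map (algebraMap ℚ E)).det ≠ 0 := by
    intro R hR
    have h1 := RingHom.map_det (algebraMap ℚ E) R
    rw [RingHom.mapMatrix_apply] at h1
    rw [← h1]
    exact (map_ne_zero _).2 hR
  rw [h2, Matrix.det_mul, Matrix.det_mul]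
  exact mul_ne_zero (mul_ne_zero (hdm hg) hx) (hdm hh)

/-- the elements with the coordinates `x` -/
noncomputable def pt {R n : ℕ} (l : Fin R → E) (x : Fin n × Fin R → ℚ) (k : Fin n) : E :=
  ∑ j, algebraMap ℚ E (x (k, j)) * l j

/-- **Every bad tuple gives a normalised violation.** -/
theorem exists_nv {R n : ℕ} (l : Fin R → E) (x : Fin n × Fin R → ℚ)
    (hbad : ¬ GoodUpTo n (Submodule.span ℚ (Set.range (pt l x)))) :
    ∃ (m s : ℕ) (_ : 2 ≤ m) (_ : m ≤ s) (_ : s ≤ n) (e₁ : Fin s → Fin n)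
      (e₂ e₃ : Fin m → Fin s) (z : Fin m) (f : Fin s × Fin m × Fin m → Bool),
      Function.Injective e₁ ∧ Function.Injective e₂ ∧ Function.Injective e₃ ∧
      ∃ c : Matrix (Fin s) (Fin n) ℚ, (∀ i i', c i (e₁ i') = if i = i' then 1 else 0) ∧
        NV l (exc e₂ e₃ z) f (fun i j => ∑ k, c i k * x (k, j)) := by
  classical
  obtain ⟨m, hm, M, hM, hdet, hz, hline⟩ := exists_primitive hbad
  have hm0 : 0 < m := by
    rcases Nat.eq_zero_or_pos m with h | h
    · exfalso
      have : IsEmpty (Fin m) := by rw [h]; infer_instance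
      rw [Matrix.det_isEmpty] at hdet
      exact one_ne_zero hdet
    · exact h
  have hm2 : 2 ≤ m := by
    by_contra hcon
    have hm1 : m = 1 := by omega
    subst hm1
    apply hz
    refine ⟨fun _ => 1, fun _ => 1, ?_, ?_, ?_⟩
    · intro h; exact one_ne_zero (congrFun h 0)
    · intro h; exact one_ne_zero (congrFun h 0)
    · rw [Matrix.det_fin_one] at hdet
      simp [hdet]
  set z : Fin m := ⟨0, hm0⟩ with hzdef
  have hA' : ∀ i j, ∃ a : Fin n → ℚ, ∑ k, a k • pt l x k = M i j := fun i j =>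
    (Submodule.mem_span_range_iff_exists_fun ℚ).1 (hM i j)
  choose a ha using hA'
  set A' : Fin n → Matrix (Fin m) (Fin m) ℚ := fun k => Matrix.of fun i j => a i j k with hA'def
  have hMA : ∀ i j, M i j = ∑ k, pt l x k * algebraMap ℚ E (A' k i j) := by
    intro i j
    rw [← ha i j]
    refine Finset.sum_congr rfl fun k _ => ?_
    rw [Algebra.smul_def, mul_comm]
    rfl
  obtain ⟨s, F, hF, hFspan, hFli⟩ : ∃ (s : ℕ) (F : Fin s → Matrix (Fin m) (Fin m) ℚ),
      (∀ i, F i ∈ Set.range A') ∧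
      Submodule.span ℚ (Set.range F) = Submodule.span ℚ (Set.range A') ∧
      LinearIndependent ℚ F := ⟨_, Submodule.exists_fun_fin_finrank_span_eq ℚ (Set.range A')⟩
  choose e₁ he₁ using hF
  have he₁inj : Function.Injective e₁ := by
    intro i i' h
    apply hFli.injective
    rw [← he₁ i, ← he₁ i', h]
  have hcoef : ∀ k, ∃ c : Fin s → ℚ, ∑ i, c i • F i = A' k := by
    intro k
    apply (Submodule.mem_span_range_iff_exists_fun ℚ).1
    rw [hFspan]
    exact Submodule.subset_span ⟨k, rfl⟩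
  choose c' hc' using hcoef
  set c : Matrix (Fin s) (Fin n) ℚ := Matrix.of fun i k => c' k i with hc
  have hcδ : ∀ i i', c i (e₁ i') = if i = i' then 1 else 0 := by
    intro i i'
    have h1 : ∑ u, (c' (e₁ i') u - if u = i' then 1 else 0) • F u = 0 := by
      simp only [sub_smul, Finset.sum_sub_distrib]
      rw [hc' (e₁ i'), he₁ i']
      simp
    have h2 := Fintype.linearIndependent_iff.1 hFli _ h1 i
    exact sub_eq_zero.1 h2
  have hNZ : NoZero F := by
    intro w v hw hv
    by_contra hcon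
    push Not at hcon
    apply hz
    refine ⟨w, v, hw, hv, ?_⟩
    have h1 : ∀ k, w ⬝ᵥ (A' k *ᵥ v) = 0 := by
      intro k
      rw [← hc' k, Matrix.sum_mulVec, dotProduct_sum]
      refine Finset.sum_eq_zero fun i _ => ?_
      rw [Matrix.smul_mulVec, dotProduct_smul, hcon i, smul_zero]
    have h2 : ∑ i, ∑ j, algebraMap ℚ E (w i) * M i j * algebraMap ℚ E (v j) =
        ∑ k, pt l x k * algebraMap ℚ E (w ⬝ᵥ (A' k *ᵥ v)) := by
      simp only [hMA, dotProduct, Matrix.mulVec, map_sum, map_mul, Finset.mul_sum,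
        Finset.sum_mul]
      rw [Finset.sum_congr rfl fun i _ => Finset.sum_comm, Finset.sum_comm]
      refine Finset.sum_congr rfl fun k _ => Finset.sum_congr rfl fun i _ =>
        Finset.sum_congr rfl fun j _ => ?_
      ring
    rw [h2]
    refine Finset.sum_eq_zero fun k _ => ?_
    rw [h1 k, map_zero, mul_zero]
  obtain ⟨e₂, e₃, f, g, h, he₂, he₃, hg, hh, hf⟩ := exists_normal z F hNZ
  have hms : m ≤ s := by
    have := Fintype.card_le_of_injective e₂ he₂
    simpa using this
  have hsn : s ≤ n := by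
    have := Fintype.card_le_of_injective e₁ he₁inj
    simpa using this
  refine ⟨m, s, hm2, hms, hsn, e₁, e₂, e₃, z, f, he₁inj, he₂, he₃, c, hcδ,
    fun k => g * F k * h, ?_, hf, ?_⟩
  · rw [Fintype.linearIndependent_iff]
    intro d hd
    have h1 : g * (∑ i, d i • F i) * h = 0 := by
      rw [Finset.mul_sum, Finset.sum_mul, ← hd]
      refine Finset.sum_congr rfl fun i _ => ?_
      rw [Matrix.mul_smul, Matrix.smul_mul]
    have h2 : g⁻¹ * (g * (∑ i, d i • F i) * h) * h⁻¹ = ∑ i, d i • F i := by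
      have h3 : g⁻¹ * (g * (∑ i, d i • F i) * h) * h⁻¹ =
          (g⁻¹ * g) * (∑ i, d i • F i) * (h * h⁻¹) := by simp only [Matrix.mul_assoc]
      rw [h3, Matrix.nonsing_inv_mul _ (isUnit_iff_ne_zero.2 hg),
        Matrix.mul_nonsing_inv _ (isUnit_iff_ne_zero.2 hh), Matrix.one_mul, Matrix.mul_one]
    rw [h1, Matrix.mul_zero, Matrix.zero_mul] at h2
    exact Fintype.linearIndependent_iff.1 hFli d h2.symm
  · have hpen : pen l (fun i j => ∑ k, c i k * x (k, j)) (fun k => g * F k * h) =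
        g.map (algebraMap ℚ E) * M * h.map (algebraMap ℚ E) := by
      have h1 : M = ∑ k, pt l x k • (A' k).map (algebraMap ℚ E) := by
        ext i j
        rw [hMA, Matrix.sum_apply]
        rfl
      have h2 : ∀ k, (A' k).map (algebraMap ℚ E) = ∑ i, algebraMap ℚ E (c i k) •
          (F i).map (algebraMap ℚ E) := by
        intro k
        rw [← hc' k]
        ext i j
        simp [Matrix.sum_apply, hc]
      have h3 : M = ∑ i, (∑ k, algebraMap ℚ E (c i k) * pt l x k) •
          (F i).map (algebraMap ℚ E) := by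
        rw [h1]
        simp only [h2, Finset.smul_sum, smul_smul, Finset.sum_smul]
        rw [Finset.sum_comm]
        refine Finset.sum_congr rfl fun i _ => Finset.sum_congr rfl fun k _ => ?_
        rw [mul_comm]
      have h4 : ∀ i, ∑ k, algebraMap ℚ E (c i k) * pt l x k =
          ∑ j, algebraMap ℚ E (∑ k, c i k * x (k, j)) * l j := by
        intro i
        simp only [pt, Finset.mul_sum, map_sum, map_mul, Finset.sum_mul]
        rw [Finset.sum_comm]
        refine Finset.sum_congr rfl fun j _ => Finset.sum_congr rfl fun k _ => ?_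
        rw [mul_assoc]
      rw [h3, Finset.mul_sum, Finset.sum_mul]
      ext i i'
      rw [pen, Matrix.of_apply, Matrix.sum_apply]
      refine Finset.sum_congr rfl fun k _ => ?_
      rw [Matrix.mul_smul, Matrix.smul_mul, Matrix.smul_apply, smul_eq_mul, h4]
      congr 1
      rw [← Matrix.map_mul, ← Matrix.map_mul, Matrix.map_apply]
    rw [hpen]
    refine ⟨?_, noLine_mul₂ hg hh hline⟩
    rw [Matrix.det_mul, Matrix.det_mul, hdet, mul_zero, zero_mul]

end Pool.Agent.Helper71.MLog
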