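import Mathlib
import Pool.Graph.R_seed8.Y787.HS.SgF
import Pool.Agent.Helper71.MLog.Nrm2
import Pool.Agent.Helper71.MLog.Gen

/-!
# Generic tuples: the bound
-/

set_option autoImplicit false

namespace Pool.Agent.Helper71.MLog

open Finset Module Matrix Filter
open Pool.Agent.Y787.AS (RZ NoLine GE ge ge_eq ge_eq_zero Wts' fam_coord Big RE)
open Pool.Agent.W254.PA (Hyp)

variable {E : Type} [Field E] [CharZero E]

/-- **The generic tuple.** -/
theorem generic_bound3 {Lt : Submodule ℚ E} (hL : Hyp Lt)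
    (hw : Wts' ℚ E) {R : ℕ} (l : Fin R → E) (hl : ∀ s, l s ∈ Lt) (hli : LinearIndependent ℚ l)
    {n m s D τ : ℕ} (e₁ : Fin s → Fin n) (he₁ : Function.Injective e₁)
    (Exc : Finset (Fin s × Fin m × Fin m)) (f : Fin s × Fin m × Fin m → Bool)
    (hτ : τ + Exc.card = s * (m * m))
    (φ : Fin D → ((Fin n × Fin R → ℚ) →ₗ[ℚ] ℚ))
    (X : ℕ → Fin n × Fin R → ℚ)
    (hz : ∀ Ψ : MvPolynomial (Fin D) ℚ, Ψ ≠ 0 →
      ∀ᶠ j in Filter.atTop, MvPolynomial.eval (fun i => φ i (X j)) Ψ ≠ 0)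
    (𝒰 : Ultrafilter ℕ) (h𝒰 : (𝒰 : Filter ℕ) ≤ atTop)
    (h : ∀ᶠ j in (𝒰 : Filter ℕ), ∃ c : Matrix (Fin s) (Fin n) ℚ,
      (∀ i i', c i (e₁ i') = if i = i' then 1 else 0) ∧
        NV l Exc f (fun i j' => ∑ k, c i k * X j (k, j'))) :
    D ≤ (τ + s * (s - 1)) + (s * (n - s) + (n - s) * R) := by
  classical
  let algK : Algebra ℚ (GE 𝒰 ℚ) := ((ge 𝒰 ℚ).comp (Pi.constRingHom ℕ ℚ)).toAlgebra
  -- the choice
  let V : ℕ → Matrix (Fin s) (Fin n) ℚ → Prop := fun j c =>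
    (∀ i i', c i (e₁ i') = if i = i' then 1 else 0) ∧
        NV l Exc f (fun i j' => ∑ k, c i k * X j (k, j'))
  have hch : ∀ j, ∃ c : Matrix (Fin s) (Fin n) ℚ, (∃ c, V j c) → V j c := by
    intro j
    by_cases hj : ∃ c, V j c
    · obtain ⟨c, hA⟩ := hj
      exact ⟨c, fun _ => hA⟩
    · exact ⟨0, fun h => absurd h hj⟩
  choose c hc using hch
  have hV : ∀ᶠ j in (𝒰 : Filter ℕ), V j (c j) := h.mono fun j hj => hc j hj
  -- the germs
  let xs : Fin n × Fin R → GE 𝒰 ℚ := fun q => ge 𝒰 ℚ (fun j => X j q)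
  let fs : Fin D → GE 𝒰 ℚ := fun i => ge 𝒰 ℚ (fun j => φ i (X j))
  let cs : Fin s × Fin n → GE 𝒰 ℚ := fun q => ge 𝒰 ℚ (fun j => c j q.1 q.2)
  let bs : Fin s × Fin R → GE 𝒰 ℚ := fun q =>
    ge 𝒰 ℚ (fun j => ∑ k, c j q.1 k * X j (k, q.2))
  have hbs : ∀ i s', bs (i, s') = ∑ k, cs (i, k) * xs (k, s') := by
    intro i s'
    have h1 : ∑ k, cs (i, k) * xs (k, s') = ge 𝒰 ℚ (fun j => ∑ k, c j i k * X j (k, s')) := by
      simp only [cs, xs, ← map_mul, ← map_sum]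
      congr 1
      funext j
      rw [Finset.sum_apply]
      rfl
    rw [h1]
  have hcs : ∀ i i', cs (i, e₁ i') = if i = i' then 1 else 0 := by
    intro i i'
    have h1 : ge 𝒰 ℚ (fun _ => if i = i' then (1 : ℚ) else 0) = if i = i' then 1 else 0 := by
      split_ifs
      · exact map_one _
      · exact map_zero _
    rw [← h1, ge_eq]
    exact hV.mono fun j hj => hj.1 i i'
  -- independence
  have hind : AlgebraicIndependent ℚ fs := germ_indep 𝒰 h𝒰 (fun j i => φ i (X j)) hz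
  set Z : Set (GE 𝒰 ℚ) := Set.range fs with hZdef
  have hZcard : Z.encard = (D : ℕ) := by
    have h2 : Function.Injective fs := hind.injective
    rw [hZdef, ← Set.image_univ, h2.encard_image, Set.encard_univ, ENat.card_eq_coe_fintype_card]
    simp
  set S : Set (GE 𝒰 ℚ) := Set.range bs with hSdef
  set T : Set (GE 𝒰 ℚ) := (fun q => cs q) '' {q : Fin s × Fin n | q.2 ∉ Set.range e₁} ∪
    (fun q => xs q) '' {q : Fin n × Fin R | q.1 ∉ Set.range e₁} with hTdef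
  have hcompl : ((Finset.univ.image e₁)ᶜ : Finset (Fin n)).card = n - s := by
    rw [Finset.card_compl, Finset.card_image_of_injective _ he₁]
    simp
  have hTcard : T.encard ≤ (s * (n - s) + (n - s) * R : ℕ) := by
    refine (Set.encard_union_le _ _).trans ?_
    have h2 : ((fun q => cs q) '' {q : Fin s × Fin n | q.2 ∉ Set.range e₁}).encard ≤
        (s * (n - s) : ℕ) := by
      refine (Set.encard_image_le _ _).trans ?_
      have h4 : {q : Fin s × Fin n | q.2 ∉ Set.range e₁} =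
          ((Finset.univ : Finset (Fin s)) ×ˢ (Finset.univ.image e₁)ᶜ :
            Finset (Fin s × Fin n)) := by
        ext q
        simp
      rw [h4, Set.encard_coe_eq_coe_finsetCard, Finset.card_product, hcompl]
      simp
    have h3 : ((fun q => xs q) '' {q : Fin n × Fin R | q.1 ∉ Set.range e₁}).encard ≤
        ((n - s) * R : ℕ) := by
      refine (Set.encard_image_le _ _).trans ?_
      have h4 : {q : Fin n × Fin R | q.1 ∉ Set.range e₁} =
          ((Finset.univ.image e₁)ᶜ ×ˢ (Finset.univ : Finset (Fin R)) :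
            Finset (Fin n × Fin R)) := by
        ext q
        simp
      rw [h4, Set.encard_coe_eq_coe_finsetCard, Finset.card_product, hcompl]
      simp
    calc ((fun q => cs q) '' {q : Fin s × Fin n | q.2 ∉ Set.range e₁}).encard +
        ((fun q => xs q) '' {q : Fin n × Fin R | q.1 ∉ Set.range e₁}).encard
        ≤ (s * (n - s) : ℕ) + ((n - s) * R : ℕ) := add_le_add h2 h3
      _ = (s * (n - s) + (n - s) * R : ℕ) := by push_cast; rfl
  have hmain := trdeg_bound S T Z (τ + s * (s - 1)) (s * (n - s) + (n - s) * R) ?_ hTcard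
    hind.to_subtype_range ?_
  · rw [hZcard] at hmain
    exact_mod_cast hmain
  · -- many elements are dependent
    intro u hu
    choose r hr using hu
    obtain ⟨Ψ, hΨ, hΨ0⟩ := nv_coord hL hw l hl hli Exc f hτ
      (fun i => LinearMap.proj (R := ℚ) (φ := fun _ : Fin s × Fin R => ℚ) (r i))
    have h7 : ∀ j, V j (c j) →
        MvPolynomial.eval (fun i => ∑ k, c j (r i).1 k * X j (k, (r i).2)) Ψ = 0 := by
      intro j hj
      have h8 := hΨ0 _ hj.2
      simp only [LinearMap.proj_apply] at h8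
      exact h8
    have h5 : u = fun i => ge 𝒰 ℚ (fun j =>
        (fun i => ∑ k, c j (r i).1 k * X j (k, (r i).2)) i) := by
      funext i
      exact (hr i).symm
    rw [h5]
    exact germ_dep 𝒰 (fun j i => ∑ k, c j (r i).1 k * X j (k, (r i).2)) Ψ hΨ
      (hV.mono h7)
  · -- everything is algebraic
    set R' := Algebra.adjoin ℚ (S ∪ T) with hR'
    have hmemS : ∀ r, bs r ∈ algField R' := fun r =>
      isAlgebraic_algebraMap (⟨bs r, Algebra.subset_adjoin (Or.inl ⟨r, rfl⟩)⟩ : R')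
    have hmemC : ∀ q : Fin s × Fin n, q.2 ∉ Set.range e₁ → cs q ∈ algField R' := fun q hq =>
      isAlgebraic_algebraMap
        (⟨cs q, Algebra.subset_adjoin (Or.inr (Or.inl ⟨q, hq, rfl⟩))⟩ : R')
    have hmemX : ∀ q : Fin n × Fin R, q.1 ∉ Set.range e₁ → xs q ∈ algField R' := fun q hq =>
      isAlgebraic_algebraMap
        (⟨xs q, Algebra.subset_adjoin (Or.inr (Or.inr ⟨q, hq, rfl⟩))⟩ : R')
    have hmemX' : ∀ q : Fin n × Fin R, xs q ∈ algField R' := by
      rintro ⟨k, s'⟩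
      by_cases hk : k ∈ Set.range e₁
      · obtain ⟨i', rfl⟩ := hk
        have h1 : xs (e₁ i', s') = bs (i', s') -
            ∑ k ∈ (Finset.univ.image e₁)ᶜ, cs (i', k) * xs (k, s') := by
          rw [hbs, eq_sub_iff_add_eq,
            ← Finset.sum_add_sum_compl (Finset.univ.image e₁) (fun k => cs (i', k) * xs (k, s')),
            Finset.sum_image (fun a _ b _ h => he₁ h)]
          congr 1
          rw [Finset.sum_eq_single i']
          · rw [hcs, if_pos rfl, one_mul]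
          · intro a _ ha
            rw [hcs, if_neg (Ne.symm ha), zero_mul]
          · intro ha
            exact absurd (Finset.mem_univ _) ha
        rw [h1]
        refine (algField R').sub_mem (hmemS _) ((algField R').sum_mem fun k hk => ?_)
        have hk' : k ∉ Set.range e₁ := by
          rintro ⟨a, ha⟩
          rw [Finset.mem_compl] at hk
          exact hk (Finset.mem_image.2 ⟨a, Finset.mem_univ _, ha⟩)
        exact (algField R').mul_mem (hmemC _ hk') (hmemX _ hk')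
      · exact hmemX _ hk
    rintro _ ⟨i, rfl⟩
    change fs i ∈ algField R'
    have h6 : fs i = ∑ q, algebraMap ℚ (GE 𝒰 ℚ) (φ i (Pi.single q 1)) * xs q := by
      have h7 : ∀ q, algebraMap ℚ (GE 𝒰 ℚ) (φ i (Pi.single q 1)) =
          ge 𝒰 ℚ (fun _ => φ i (Pi.single q 1)) := fun q => rfl
      simp only [h7, fs, xs, ← map_mul, ← map_sum]
      congr 1
      funext j
      rw [Finset.sum_apply]
      have h8 : X j = ∑ q, X j q • (Pi.single q (1 : ℚ) : Fin n × Fin R → ℚ) := by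
        funext q
        simp [Finset.sum_apply, Pi.single_apply]
      conv_lhs => rw [h8, map_sum]
      refine Finset.sum_congr rfl fun q _ => ?_
      rw [map_smul, smul_eq_mul, mul_comm]
      rfl
    rw [h6]
    refine (algField R').sum_mem fun q _ => (algField R').mul_mem ?_ (hmemX' q)
    have h9 : algebraMap ℚ (GE 𝒰 ℚ) (φ i (Pi.single q 1)) =
        algebraMap R' (GE 𝒰 ℚ) (algebraMap ℚ R' (φ i (Pi.single q 1))) := rfl
    rw [h9]
    exact isAlgebraic_algebraMap _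

/-- a dense set contains a generic sequence -/
theorem exists_generic_mem' {ι X : Type} [Finite ι] (B : Set X) (f : X → ι → ℚ)
    (hB : ∀ Ψ : MvPolynomial ι ℚ, Ψ ≠ 0 → ∃ x ∈ B, MvPolynomial.eval (f x) Ψ ≠ 0) :
    ∃ (x : ℕ → X), (∀ j, x j ∈ B) ∧ ∀ Ψ : MvPolynomial ι ℚ, Ψ ≠ 0 →
        ∀ᶠ j in Filter.atTop, MvPolynomial.eval (f (x j)) Ψ ≠ 0 := by
  classical
  have hcount : Countable (MvPolynomial ι ℚ) := by
    rw [← Cardinal.mk_le_aleph0_iff]
    refine (MvPolynomial.cardinalMk_le_max).trans ?_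
    simp
  obtain ⟨F, hF⟩ := exists_surjective_nat (MvPolynomial ι ℚ)
  have h : ∀ j : ℕ, ∃ x ∈ B, MvPolynomial.eval (f x)
        (∏ i ∈ range (j + 1), if F i = 0 then 1 else F i) ≠ 0 := by
    intro j
    apply hB
    intro h1
    rw [Finset.prod_eq_zero_iff] at h1
    obtain ⟨i, -, hi⟩ := h1
    split_ifs at hi with h0
    · exact one_ne_zero hi
    · exact h0 hi
  choose x hx hp using h
  refine ⟨x, hx, fun Ψ hΨ => ?_⟩
  obtain ⟨i, rfl⟩ := hF Ψ
  filter_upwards [Filter.eventually_ge_atTop i] with j hj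
  have h1 := hp j
  rw [map_prod, Finset.prod_ne_zero_iff] at h1
  have h2 := h1 i (Finset.mem_range.2 (by omega))
  rwa [if_neg hΨ] at h2

/-- **Dimension of the set of bad tuples.** -/
theorem bad_dim {Lt : Submodule ℚ E} (hL : Hyp Lt)
    (hw : Wts' ℚ E) {R : ℕ} (l : Fin R → E) (hl : ∀ s, l s ∈ Lt) (hli : LinearIndependent ℚ l)
    {n d : ℕ} (hd : ∀ m s τ : ℕ, 2 ≤ m → m ≤ s → s ≤ n →
      τ + (m * m + m * (m - 1)) = s * (m * m) →
      (τ + s * (s - 1)) + (s * (n - s) + (n - s) * R) ≤ d)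
    (φ : Fin (d + 1) → ((Fin n × Fin R → ℚ) →ₗ[ℚ] ℚ)) :
    ∃ Ψ : MvPolynomial (Fin (d + 1)) ℚ, Ψ ≠ 0 ∧ ∀ x : Fin n × Fin R → ℚ,
      ¬ GoodUpTo n (Submodule.span ℚ (Set.range (pt l x))) →
        MvPolynomial.eval (fun i => φ i x) Ψ = 0 := by
  classical
  by_contra hcon
  push Not at hcon
  obtain ⟨X, hX, hgen⟩ := exists_generic_mem'
    {x : Fin n × Fin R → ℚ | ¬ GoodUpTo n (Submodule.span ℚ (Set.range (pt l x)))}
    (fun x i => φ i x) (fun Ψ hΨ => by
      obtain ⟨x, hx, hx'⟩ := hcon Ψ hΨ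
      exact ⟨x, hx, hx'⟩)
  set 𝒰 : Ultrafilter ℕ := Ultrafilter.of atTop with h𝒰def
  have h𝒰 : (𝒰 : Filter ℕ) ≤ atTop := Ultrafilter.of_le _
  let TT : Type := (m : Fin (n + 1)) × (s : Fin (n + 1)) × (Fin (s : ℕ) → Fin n) ×
    (Fin (m : ℕ) → Fin (s : ℕ)) × (Fin (m : ℕ) → Fin (s : ℕ)) × Fin (m : ℕ) ×
    (Fin (s : ℕ) × Fin (m : ℕ) × Fin (m : ℕ) → Bool)
  have hex : ∀ᶠ j in (𝒰 : Filter ℕ), ∃ t : TT, 2 ≤ (t.1 : ℕ) ∧ (t.1 : ℕ) ≤ (t.2.1 : ℕ) ∧
      Function.Injective t.2.2.1 ∧ Function.Injective t.2.2.2.1 ∧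
      Function.Injective t.2.2.2.2.1 ∧ ∃ c : Matrix (Fin (t.2.1 : ℕ)) (Fin n) ℚ,
        (∀ i i', c i (t.2.2.1 i') = if i = i' then 1 else 0) ∧
        NV l (exc t.2.2.2.1 t.2.2.2.2.1 t.2.2.2.2.2.1) t.2.2.2.2.2.2
          (fun i j' => ∑ k, c i k * X j (k, j')) := by
    refine Filter.Eventually.of_forall fun j => ?_
    obtain ⟨m, s, hm, hms, hsn, e₁, e₂, e₃, z, f, h1, h2, h3, c, h4, h5⟩ := exists_nv l (X j) (hX j)
    exact ⟨⟨⟨m, by omega⟩, ⟨s, by omega⟩, e₁, e₂, e₃, z, f⟩, hm, hms, h1, h2, h3, c, h4, h5⟩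
  obtain ⟨t, ht⟩ := ultra_pigeon 𝒰 _ hex
  obtain ⟨j, hj⟩ := ht.exists
  have hcard := exc_card hj.2.2.2.1 hj.2.2.2.2.1 t.2.2.2.2.2.1
  have hle : (exc t.2.2.2.1 t.2.2.2.2.1 t.2.2.2.2.2.1).card ≤
      (t.2.1 : ℕ) * ((t.1 : ℕ) * (t.1 : ℕ)) := by
    have := Finset.card_le_univ (exc t.2.2.2.1 t.2.2.2.2.1 t.2.2.2.2.2.1)
    simpa using this
  obtain ⟨τ, hτ⟩ : ∃ τ, τ + (exc t.2.2.2.1 t.2.2.2.2.1 t.2.2.2.2.2.1).card =
      (t.2.1 : ℕ) * ((t.1 : ℕ) * (t.1 : ℕ)) := ⟨_, Nat.sub_add_cancel hle⟩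
  have hbound := generic_bound3 hL hw l hl hli t.2.2.1 hj.2.2.1 _ t.2.2.2.2.2.2 hτ φ X hgen 𝒰 h𝒰
    (ht.mono fun j hj => hj.2.2.2.2.2)
  rw [hcard] at hτ
  have := hd _ _ τ hj.1 hj.2.1 (Nat.le_of_lt_succ t.2.1.2) hτ
  omega

/-- the arithmetic -/
theorem arith {n R c d : ℕ} (h1 : (c : ℤ) ≤ 2 * ((R : ℤ) - n))
    (h2 : (c : ℤ) ≤ n * ((R : ℤ) - n ^ 2 + n)) (hd : d + c = n * R) :
    ∀ m s τ : ℕ, 2 ≤ m → m ≤ s → s ≤ n → τ + (m * m + m * (m - 1)) = s * (m * m) →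
      (τ + s * (s - 1)) + (s * (n - s) + (n - s) * R) ≤ d := by
  intro m s τ hm hms hsn hτ
  obtain ⟨m', rfl⟩ : ∃ m', m = m' + 1 := ⟨m - 1, by omega⟩
  obtain ⟨s', rfl⟩ : ∃ s', s = s' + 1 := ⟨s - 1, by omega⟩
  obtain ⟨k, rfl⟩ : ∃ k, n = s' + 1 + k := ⟨n - (s' + 1), by omega⟩
  have e1 : s' + 1 + k - (s' + 1) = k := by omega
  rw [e1]
  rw [Nat.add_sub_cancel] at hτ ⊢
  zify at hτ hd hm hms ⊢
  push_cast at h1 h2
  -- notations over the integers
  obtain ⟨a, ha⟩ : ∃ a : ℤ, a = (m' : ℤ) + 1 := ⟨_, rfl⟩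
  obtain ⟨b, hb⟩ : ∃ b : ℤ, b = (s' : ℤ) + 1 := ⟨_, rfl⟩
  obtain ⟨N, hN⟩ : ∃ N : ℤ, N = (s' : ℤ) + 1 + k := ⟨_, rfl⟩
  have ha' : (m' : ℤ) = a - 1 := by omega
  have hb' : (s' : ℤ) = b - 1 := by omega
  have hk : (k : ℤ) = N - b := by omega
  have hk0 : (0 : ℤ) ≤ k := Int.natCast_nonneg k
  rw [hk, hb'] at h1 h2 hd ⊢
  rw [ha', hb'] at hτ
  have ea : a - 1 + 1 = a := by ring
  have eb : b - 1 + 1 = b := by ring
  have eN : b + (N - b) = N := by ring
  simp only [ea, eb, eN] at h1 h2 hd hτ ⊢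
  have hbN : b ≤ N := by omega
  have hab : a ≤ b := by omega
  have ha2 : 2 ≤ a := by omega
  have h0c : (0 : ℤ) ≤ c := Int.natCast_nonneg c
  have hN2 : 2 ≤ N := by omega
  have hg : (c : ℤ) ≤ a * (R - N - a ^ 2 + 2 * a) := by
    rcases eq_or_lt_of_le hN2 with h3 | h3
    · have ha3 : a = 2 := by omega
      rw [ha3, ← h3]
      rw [← h3] at h1
      linarith
    · have h4 : (N - 2) * (c : ℤ) ≤ (N - 2) * (a * (R - N - a ^ 2 + 2 * a)) := by
        have h5 : (N - a) * (c : ℤ) ≤ (N - a) * (2 * (R - N)) :=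
          mul_le_mul_of_nonneg_left h1 (by omega)
        have h6 : (a - 2) * (c : ℤ) ≤ (a - 2) * (N * (R - N ^ 2 + N)) :=
          mul_le_mul_of_nonneg_left h2 (by omega)
        have h7 : 0 ≤ (N - a) * (a - 2) * (N - 2) * (N + a) := by
          have := mul_nonneg (mul_nonneg (mul_nonneg (sub_nonneg.2 (show a ≤ N by omega))
            (sub_nonneg.2 (show 2 ≤ a by omega))) (sub_nonneg.2 (show 2 ≤ N by omega)))
            (show 0 ≤ N + a by omega)
          exact this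
        have h8 : (N - 2) * (a * (R - N - a ^ 2 + 2 * a)) =
            (N - a) * (2 * (R - N)) + (a - 2) * (N * (R - N ^ 2 + N)) +
            (N - a) * (a - 2) * (N - 2) * (N + a) := by ring
        rw [h8]
        have h9 : (N - 2) * (c : ℤ) = (N - a) * c + (a - 2) * c := by ring
        rw [h9]
        linarith
      exact le_of_mul_le_mul_left h4 (by omega)
  have hR : N ^ 2 - N ≤ R := by
    have h3 : 0 ≤ N * ((R : ℤ) - N ^ 2 + N) := h0c.trans h2
    have h4 := nonneg_of_mul_nonneg_right h3 (by omega)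
    linarith
  -- the claim
  have hkey : (c : ℤ) ≤ b * (R - N + 1 - a ^ 2) + 2 * a ^ 2 - a := by
    rcases eq_or_lt_of_le hab with h4 | h4
    · rw [← h4]
      have h5 : a * ((R : ℤ) - N + 1 - a ^ 2) + 2 * a ^ 2 - a = a * (R - N - a ^ 2 + 2 * a) := by
        ring
      rw [h5]
      exact hg
    · have h5 : 0 ≤ (R : ℤ) - N + 1 - a ^ 2 := by nlinarith
      have h6 : a * ((R : ℤ) - N + 1 - a ^ 2) ≤ b * (R - N + 1 - a ^ 2) :=
        mul_le_mul_of_nonneg_right hab h5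
      have h7 : a * ((R : ℤ) - N + 1 - a ^ 2) + 2 * a ^ 2 - a = a * (R - N - a ^ 2 + 2 * a) := by
        ring
      linarith
  nlinarith

end Pool.Agent.Helper71.MLog
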