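import Mathlib
import Pool.Agent.Helper71.MLog.Nrm3

/-!
# Generic subspaces
-/

set_option autoImplicit false

namespace Pool.Agent.Helper71.MLog

open Finset Module Matrix
open Pool.Agent.Y787.AS (RZ Wts')
open Pool.Agent.W254.PA (Hyp)

variable {E : Type} [Field E] [CharZero E]

/-- the property for all sizes -/
def GoodAll (V : Submodule ℚ E) : Prop :=
  ∀ (N : ℕ) (M : Matrix (Fin N) (Fin N) E), (∀ i j, M i j ∈ V) → M.det = 0 → RZ ℚ M

theorem goodAll_of {n R : ℕ} (l : Fin R → E) (x : Fin n × Fin R → ℚ)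
    (h : GoodUpTo n (Submodule.span ℚ (Set.range (pt l x)))) :
    GoodAll (Submodule.span ℚ (Set.range (pt l x))) := by
  classical
  intro N M hM hdet
  rcases Nat.lt_or_ge n N with hN | hN
  · have hfin : Module.Finite ℚ (Submodule.span ℚ (Set.range (pt l x))) :=
      FiniteDimensional.span_of_finite ℚ (Set.finite_range _)
    have hdim : finrank ℚ (Submodule.span ℚ (Set.range (pt l x))) < N := by
      refine lt_of_le_of_lt ?_ hN
      have := finrank_range_le_card (R := ℚ) (pt l x)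
      rwa [Fintype.card_fin] at this
    obtain ⟨w, v, hw, hv, h0⟩ := Pool.Agent.Y921.SR.large_space _ hdim M hM
    refine ⟨w, v, hw, hv, ?_⟩
    rw [← h0, Pool.Agent.Y921.SR.bil]
    refine Finset.sum_congr rfl fun i _ => Finset.sum_congr rfl fun j _ => ?_
    rw [Algebra.smul_def, map_mul]
    ring
  · exact h N hN M hM hdet

/-- small tuples -/
theorem good_small {n R : ℕ} (hn : n < 2) (l : Fin R → E) (x : Fin n × Fin R → ℚ) :
    GoodUpTo n (Submodule.span ℚ (Set.range (pt l x))) := by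
  by_contra hcon
  obtain ⟨m, s, hm, hms, hsn, -⟩ := exists_nv l x hcon
  omega

variable {Lt : Submodule ℚ E}

/-- **Counting.** -/
theorem generic_count (hL : Hyp Lt) (hw : Wts' ℚ E) {n R c : ℕ} (l : Fin R → E)
    (hl : ∀ s, l s ∈ Lt) (hli : LinearIndependent ℚ l)
    (h1 : (c : ℤ) ≤ 2 * ((R : ℤ) - n)) (h2 : (c : ℤ) ≤ n * ((R : ℤ) - n ^ 2 + n)) :
    ∃ κ : ℕ, ∀ H : ℕ, 1 ≤ H →
      Set.ncard {X : Fin n → Fin R → ℤ | (∀ k j, |X k j| ≤ H) ∧
        ¬ GoodAll (Submodule.span ℚ (Set.range fun k => ∑ j, (X k j : E) * l j))} ≤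
      κ * H ^ (n * R - c) := by
  classical
  have hpt : ∀ X : Fin n → Fin R → ℤ, pt l (fun q => ((X q.1 q.2 : ℤ) : ℚ)) =
      fun k => ∑ j, (X k j : E) * l j := by
    intro X
    funext k
    rw [pt]
    refine Finset.sum_congr rfl fun j _ => ?_
    simp
  rcases Nat.lt_or_ge n 2 with hn | hn
  · refine ⟨0, fun H _ => ?_⟩
    have h0 : {X : Fin n → Fin R → ℤ | (∀ k j, |X k j| ≤ H) ∧
        ¬ GoodAll (Submodule.span ℚ (Set.range fun k => ∑ j, (X k j : E) * l j))} = ∅ := by
      rw [Set.eq_empty_iff_forall_notMem]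
      rintro X ⟨-, hX⟩
      apply hX
      rw [← hpt]
      exact goodAll_of l _ (good_small hn l _)
    rw [h0]
    simp
  have hcle : c ≤ n * R := by
    have hRn : (0 : ℤ) ≤ (R : ℤ) - n ^ 2 + n :=
      nonneg_of_mul_nonneg_right ((Int.natCast_nonneg c).trans h2) (by omega)
    have h3 : (c : ℤ) ≤ n * R := by
      refine h2.trans (mul_le_mul_of_nonneg_left ?_ (by omega))
      nlinarith
    exact_mod_cast h3
  obtain ⟨κ, hκ⟩ := Pool.Agent.Y787.HS.count_gen (K := ℚ) (d := n * R - c)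
    (σ := Fin n × Fin R)
    {x | ¬ GoodUpTo n (Submodule.span ℚ (Set.range (pt l x)))}
    (fun φ => bad_dim hL hw l hl hli (arith h1 h2 (Nat.sub_add_cancel hcle)) φ)
  refine ⟨κ, fun H hH => ?_⟩
  have hfin : Set.Finite {X : Fin n → Fin R → ℤ | (∀ k j, |X k j| ≤ H) ∧
        ¬ GoodAll (Submodule.span ℚ (Set.range fun k => ∑ j, (X k j : E) * l j))} := by
    refine Set.Finite.subset (Set.Finite.pi' (fun _ : Fin n => Set.Finite.pi'
      (fun _ : Fin R => (Set.finite_Icc (-(H : ℤ)) H)))) ?_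
    rintro X ⟨hX, -⟩ k j
    exact abs_le.1 (hX k j)
  rw [Set.ncard_eq_toFinset_card _ hfin]
  let g : (Fin n → Fin R → ℤ) → (Fin n × Fin R → ℤ) := fun X p => X p.1 p.2
  have hg : Function.Injective g := by
    intro A A' h
    funext i j
    exact congrFun h (i, j)
  rw [← Finset.card_image_of_injective _ hg]
  refine hκ H hH _ ?_
  intro a ha
  obtain ⟨A, hA, rfl⟩ := Finset.mem_image.1 ha
  rw [Set.Finite.mem_toFinset] at hA
  refine ⟨fun p => hA.1 _ _, ?_⟩
  intro hgood
  apply hA.2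
  rw [← hpt]
  exact goodAll_of l _ hgood

/-- **The exceptional hypersurface.** -/
theorem generic_hyp (hL : Hyp Lt) (hw : Wts' ℚ E) {n R : ℕ} (l : Fin R → E)
    (hl : ∀ s, l s ∈ Lt) (hli : LinearIndependent ℚ l) (hR : n ^ 2 < R + n) :
    ∃ Ψ : MvPolynomial (Fin n × Fin R) ℚ, Ψ ≠ 0 ∧ ∀ x : Fin n × Fin R → ℚ,
      MvPolynomial.eval x Ψ ≠ 0 → GoodAll (Submodule.span ℚ (Set.range (pt l x))) := by
  classical
  rcases Nat.lt_or_ge n 2 with hn | hn
  · exact ⟨1, one_ne_zero, fun x _ => goodAll_of l _ (good_small hn l _)⟩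
  have hnR : 1 ≤ n * R := by
    have : n < R := by nlinarith
    nlinarith
  have h1 : ((1 : ℕ) : ℤ) ≤ 2 * ((R : ℤ) - n) := by
    have : n < R := by nlinarith
    push_cast
    omega
  have h2 : ((1 : ℕ) : ℤ) ≤ n * ((R : ℤ) - n ^ 2 + n) := by
    zify at hR hn
    push_cast
    nlinarith
  have hcard : Fintype.card (Fin n × Fin R) = (n * R - 1) + 1 := by
    rw [Fintype.card_prod, Fintype.card_fin, Fintype.card_fin]
    omega
  set e : Fin n × Fin R ≃ Fin ((n * R - 1) + 1) := Fintype.equivFinOfCardEq hcard with he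
  obtain ⟨Ψ, hΨ, hΨ0⟩ := bad_dim hL hw l hl hli (n := n) (d := n * R - 1)
    (arith h1 h2 (Nat.sub_add_cancel hnR))
    (fun i => LinearMap.proj (R := ℚ) (φ := fun _ : Fin n × Fin R => ℚ) (e.symm i))
  refine ⟨MvPolynomial.rename e.symm Ψ, ?_, fun x hx => ?_⟩
  · intro h0
    apply hΨ
    exact (MvPolynomial.rename_injective _ e.symm.injective) (by rw [h0, map_zero])
  · apply goodAll_of
    by_contra hcon
    apply hx
    rw [MvPolynomial.eval_rename]
    exact hΨ0 x hcon

/-- **Existence.** -/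
theorem generic_exists (hL : Hyp Lt) (hw : Wts' ℚ E) {n R : ℕ} (l : Fin R → E)
    (hl : ∀ s, l s ∈ Lt) (hli : LinearIndependent ℚ l) (hR : n ^ 2 < R + n) :
    ∃ V : Submodule ℚ E, V ≤ Submodule.span ℚ (Set.range l) ∧ finrank ℚ V = n ∧ GoodAll V := by
  classical
  have hnR : n ≤ R := by
    rcases Nat.eq_zero_or_pos n with h | h
    · omega
    · nlinarith
  obtain ⟨Ψ, hΨ, hΨ0⟩ := generic_hyp hL hw l hl hli hR
  set Δ : MvPolynomial (Fin n × Fin R) ℚ := (Matrix.of fun i i' : Fin n =>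
    (MvPolynomial.X (i, Fin.castLE hnR i') : MvPolynomial (Fin n × Fin R) ℚ)).det with hΔ
  have heval : ∀ x : Fin n × Fin R → ℚ, MvPolynomial.eval x Δ =
      (Matrix.of fun i i' : Fin n => x (i, Fin.castLE hnR i')).det := by
    intro x
    rw [hΔ, RingHom.map_det]
    congr 1
    ext i j
    simp
  have hΔ0 : Δ ≠ 0 := by
    intro h0
    have h1 := heval (fun p => if Fin.castLE hnR p.1 = p.2 then 1 else 0)
    rw [h0, map_zero] at h1
    have h2 : (Matrix.of fun i i' : Fin n =>
        (fun p : Fin n × Fin R => if Fin.castLE hnR p.1 = p.2 then (1 : ℚ) else 0)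
          (i, Fin.castLE hnR i')) = 1 := by
      ext i j
      simp only [Matrix.of_apply, Matrix.one_apply]
      by_cases h : i = j
      · simp [h]
      · rw [if_neg h, if_neg fun h' => h (Fin.castLE_injective hnR h')]
    rw [h2, Matrix.det_one] at h1
    exact zero_ne_one h1
  obtain ⟨x, hx⟩ : ∃ x : Fin n × Fin R → ℚ, MvPolynomial.eval x (Ψ * Δ) ≠ 0 := by
    by_contra hcon
    push Not at hcon
    exact mul_ne_zero hΨ hΔ0 (MvPolynomial.funext fun x => by rw [hcon x, map_zero])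
  rw [map_mul] at hx
  have hx1 := left_ne_zero_of_mul hx
  have hx2 := right_ne_zero_of_mul hx
  refine ⟨Submodule.span ℚ (Set.range (pt l x)), ?_, ?_, hΨ0 x hx1⟩
  · rw [Submodule.span_le]
    rintro _ ⟨k, rfl⟩
    rw [pt]
    refine Submodule.sum_mem _ fun j _ => ?_
    rw [← Algebra.smul_def]
    exact Submodule.smul_mem _ _ (Submodule.subset_span ⟨j, rfl⟩)
  · have hli' : LinearIndependent ℚ (pt l x) := by
      rw [Fintype.linearIndependent_iff]
      intro a ha
      have h3 : ∑ j, (∑ k, a k * x (k, j)) • l j = 0 := by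
        rw [← ha]
        simp only [pt, Algebra.smul_def, map_sum, map_mul, Finset.sum_mul, Finset.mul_sum]
        rw [Finset.sum_comm]
        refine Finset.sum_congr rfl fun j _ => Finset.sum_congr rfl fun k _ => ?_
        rw [mul_assoc]
      have h4 := Fintype.linearIndependent_iff.1 hli _ h3
      have h5 : a ᵥ* (Matrix.of fun i i' : Fin n => x (i, Fin.castLE hnR i')) = 0 := by
        funext i'
        simp only [Matrix.vecMul, dotProduct, Matrix.of_apply, Pi.zero_apply]
        exact h4 (Fin.castLE hnR i')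
      rw [heval] at hx2
      have h6 := Matrix.eq_zero_of_vecMul_eq_zero hx2 h5
      intro i
      exact congrFun h6 i
    rw [finrank_span_eq_card hli', Fintype.card_fin]

end Pool.Agent.Helper71.MLog
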