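import Mathlib
import Pool.Agent.Helper71.MLog.Split

/-!
# A direct sum decomposition with good partial sums
-/

set_option autoImplicit false

namespace Pool.Agent.Helper71.MLog

open Finset Module Matrix Pool.Agent.W245 Pool.Agent.W245.PB Pool.Agent.H297R2 Pool.Agent.Y921.SR

theorem zeroProp_mono {C : Type*} [Field C] [CharZero C] {V V' : Submodule ℚ C} (h : V ≤ V')
    (hV' : ZeroProp V') : ZeroProp V := fun n hn M hM hdet => hV' n hn M (fun i j => h (hM i j)) hdet

/-- the state of the construction -/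
structure Good {C : Type} [Field C] [CharZero C] (Λ : Submodule ℚ C) {m : ℕ}
    (P : Fin (m + 1) → Submodule ℚ C) : Prop where
  fin : ∀ i, Module.Finite ℚ (P i)
  le : ∀ i, P i ≤ Λ
  indep : ∀ v : Fin (m + 1) → C, (∀ i, v i ∈ P i) → ∑ i, v i = 0 → ∀ i, v i = 0
  zero : ∀ j : Fin (m + 1), ZeroProp (⨆ i : {i // i ≠ j}, P i)

theorem exists_next {κ C : Type} [Field κ] [IsAlgClosed κ] [CharZero κ] [Field C] [CharZero C]
    [Algebra κ C] (Λ : Submodule ℚ C) (hΛ : ¬ Module.Finite ℚ Λ) (hB : BakerProp κ Λ) {m : ℕ}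
    (P : Fin (m + 1) → Submodule ℚ C) (hP : Good Λ P) (a : C) (ha : a ∈ Λ) :
    ∃ P' : Fin (m + 1) → Submodule ℚ C, Good Λ P' ∧ (∀ i, P i < P' i) ∧ a ∈ ⨆ i, P' i := by
  classical
  have hPf := hP.fin
  obtain ⟨μ, hμΛ, hμ, hμa⟩ : ∃ μ ∈ Λ, μ ∉ ⨆ i, P i ∧ (a ∉ ⨆ i, P i → μ = a) := by
    by_cases h : a ∈ ⨆ i, P i
    · have h1 : ¬ Λ ≤ ⨆ i, P i := by
        intro hle
        apply hΛ
        have h2 : Module.Finite ℚ (⨆ i, P i : Submodule ℚ C) := inferInstance
        exact Submodule.finiteDimensional_of_le hle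
      obtain ⟨μ, h2, h3⟩ := SetLike.not_le_iff_exists.1 h1
      exact ⟨μ, h2, h3, fun h4 => absurd h h4⟩
    · exact ⟨a, ha, h, fun _ => rfl⟩
  obtain ⟨x, hxΛ, hxμ, hxi, hxg⟩ := step (κ := κ) Λ hΛ hB m P hPf hP.zero μ hμΛ hμ
  have hxn : ∀ i, x i ∉ P i := by
    intro i hi
    have h1 := hxi (Pi.single i 1) (by
      rw [Finset.sum_eq_single i (fun b _ hb => by simp [hb]) (by simp)]
      rw [Pi.single_eq_same, one_smul]
      exact (le_iSup P i) hi) i
    rw [Pi.single_eq_same] at h1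
    exact one_ne_zero h1
  have hle : ∀ i, P i ≤ P i ⊔ Submodule.span ℚ {x i} := fun i => le_sup_left
  refine ⟨fun i => P i ⊔ Submodule.span ℚ {x i}, ⟨?_, ?_, ?_, ?_⟩, ?_, ?_⟩
  · intro i
    have := hPf i
    infer_instance
  · intro i
    exact sup_le (hP.le i) ((Submodule.span_singleton_le_iff_mem _ _).2 (hxΛ i))
  · intro v hv h0
    have h1 : ∀ i, ∃ (p : C) (c : ℚ), p ∈ P i ∧ v i = p + c • x i := by
      intro i
      obtain ⟨p, hp, y, hy, hpy⟩ := Submodule.mem_sup.1 (hv i)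
      obtain ⟨c, rfl⟩ := Submodule.mem_span_singleton.1 hy
      exact ⟨p, c, hp, hpy.symm⟩
    choose p c hp hpc using h1
    have h2 : ∑ i, p i + ∑ i, c i • x i = 0 := by
      rw [← Finset.sum_add_distrib, ← h0]
      exact Finset.sum_congr rfl fun i _ => (hpc i).symm
    have h3 : ∑ i, c i • x i ∈ ⨆ i, P i := by
      rw [← neg_eq_of_add_eq_zero_right h2]
      exact Submodule.neg_mem _ (Submodule.sum_mem _ fun i _ => le_iSup P i (hp i))
    have h4 := hxi c h3
    have h5 : ∑ i, p i = 0 := by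
      rw [← h2, Finset.sum_eq_zero (s := univ) (f := fun i => c i • x i)
        (fun i _ => by rw [h4 i, zero_smul]), add_zero]
    intro i
    rw [hpc i, h4 i, zero_smul, add_zero]
    exact hP.indep p hp h5 i
  · exact hxg
  · intro i
    refine lt_of_le_of_ne (hle i) fun h => hxn i ?_
    rw [h]
    exact Submodule.mem_sup_right (Submodule.mem_span_singleton_self _)
  · by_cases h : a ∈ ⨆ i, P i
    · exact (iSup_mono hle) h
    · rw [← hμa h, ← hxμ]
      exact Submodule.sum_mem _ fun i _ => le_iSup (fun i => P i ⊔ Submodule.span ℚ {x i}) i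
        (Submodule.mem_sup_right (Submodule.mem_span_singleton_self _))

/-- **The decomposition.** -/
theorem exists_split {κ C : Type} [Field κ] [IsAlgClosed κ] [CharZero κ] [Field C] [CharZero C]
    [Algebra κ C] (Λ : Submodule ℚ C) (hcount : (Λ : Set C).Countable)
    (hΛ : ¬ Module.Finite ℚ Λ) (hB : BakerProp κ Λ) (m : ℕ) (V : Submodule ℚ C) (hVΛ : V ≤ Λ)
    (hVf : Module.Finite ℚ V) (hV : ZeroProp V) :
    ∃ P : Fin (m + 1) → Submodule ℚ C, iSupIndep P ∧ ⨆ i, P i = Λ ∧ V ≤ P 0 ∧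
      (∀ i, ¬ Module.Finite ℚ (P i)) ∧ ∀ j : Fin (m + 1), ZeroProp (⨆ i : {i // i ≠ j}, P i) := by
  classical
  obtain ⟨f, hf⟩ := hcount.exists_eq_range ⟨0, Λ.zero_mem⟩
  have hfΛ : ∀ n, f n ∈ Λ := fun n => by
    have : f n ∈ (Λ : Set C) := by rw [hf]; exact ⟨n, rfl⟩
    exact this
  -- the initial state
  set P₀ : Fin (m + 1) → Submodule ℚ C := fun i => if i = 0 then V else ⊥ with hP₀
  have hP₀V : ∀ i, P₀ i ≤ V := by
    intro i
    simp only [hP₀]
    split_ifs
    · exact le_rfl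
    · exact bot_le
  have hG₀ : Good Λ P₀ := by
    refine ⟨fun i => ?_, fun i => (hP₀V i).trans hVΛ, ?_, fun j => ?_⟩
    · exact Submodule.finiteDimensional_of_le (hP₀V i)
    · intro v hv h0 i
      have h1 : ∀ i, i ≠ 0 → v i = 0 := by
        intro i hi
        have := hv i
        simp only [hP₀, if_neg hi] at this
        exact (Submodule.mem_bot ℚ).1 this
      by_cases hi : i = 0
      · rw [hi, ← h0, Finset.sum_eq_single 0 (fun b _ hb => h1 b hb) (by simp)]
      · exact h1 i hi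
    · exact zeroProp_mono (iSup_le fun i => hP₀V _) hV
  -- the sequence
  have hnext : ∀ (n : ℕ) (P : Fin (m + 1) → Submodule ℚ C), ∃ P' : Fin (m + 1) → Submodule ℚ C,
      Good Λ P → (Good Λ P' ∧ (∀ i, P i < P' i) ∧ f n ∈ ⨆ i, P' i) := by
    intro n P
    by_cases h : Good Λ P
    · obtain ⟨P', h'⟩ := exists_next (κ := κ) Λ hΛ hB P h (f n) (hfΛ n)
      exact ⟨P', fun _ => h'⟩
    · exact ⟨P, fun h' => absurd h' h⟩
  choose g hg using hnext
  obtain ⟨U, hU0, hUs⟩ : ∃ U : ℕ → Fin (m + 1) → Submodule ℚ C, U 0 = P₀ ∧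
      ∀ n, U (n + 1) = g n (U n) := ⟨fun n => Nat.rec P₀ (fun n P => g n P) n, rfl, fun n => rfl⟩
  have hUg : ∀ n, Good Λ (U n) := by
    intro n
    induction n with
    | zero => rw [hU0]; exact hG₀
    | succ n ih => rw [hUs]; exact (hg n (U n) ih).1
  have hlt : ∀ n i, U n i < U (n + 1) i := fun n i => by
    rw [hUs]; exact (hg n (U n) (hUg n)).2.1 i
  have hfU : ∀ n, f n ∈ ⨆ i, U (n + 1) i := fun n => by
    rw [hUs]; exact (hg n (U n) (hUg n)).2.2
  have hmono : ∀ i, Monotone fun n => U n i := fun i =>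
    monotone_nat_of_le_succ fun n => (hlt n i).le
  set P : Fin (m + 1) → Submodule ℚ C := fun i => ⨆ n, U n i with hP
  have hUP : ∀ n i, U n i ≤ P i := fun n i => le_iSup (fun n => U n i) n
  refine ⟨P, ?_, ?_, ?_, ?_, ?_⟩
  · rw [iSupIndep_iff_finsetSum_eq_zero_imp_eq_zero]
    intro s v hv h0 i hi
    set v' : Fin (m + 1) → C := fun i => if i ∈ s then v i else 0 with hv'
    have h1 : ∀ i, ∃ n, v' i ∈ U n i := by
      intro i
      by_cases his : i ∈ s
      · simp only [hv', if_pos his]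
        exact (Submodule.mem_iSup_of_directed (fun n => U n i) (hmono i).directed_le).1 (hv i his)
      · simp only [hv', if_neg his]
        exact ⟨0, Submodule.zero_mem _⟩
    choose N hN using h1
    have h2 : ∀ i, v' i ∈ U (univ.sup N) i := fun i =>
      hmono i (Finset.le_sup (f := N) (Finset.mem_univ i)) (hN i)
    have h3 : ∑ i, v' i = 0 := by
      rw [← h0, ← Finset.sum_subset (Finset.subset_univ s) (fun j _ hj => by simp [hv', hj])]
      exact Finset.sum_congr rfl fun j hj => by simp [hv', hj]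
    have h4 := (hUg (univ.sup N)).indep v' h2 h3 i
    simpa [hv', hi] using h4
  · apply le_antisymm
    · exact iSup_le fun i => iSup_le fun n => (hUg n).le i
    · intro a ha
      have : a ∈ Set.range f := by rw [← hf]; exact ha
      obtain ⟨n, rfl⟩ := this
      exact (iSup_mono fun i => hUP (n + 1) i) (hfU n)
  · refine le_trans ?_ (hUP 0 0)
    rw [hU0]
    simp [hP₀]
  · intro i hfin
    have h1 : ∀ n, n ≤ finrank ℚ (U n i) := by
      intro n
      induction n with
      | zero => exact Nat.zero_le _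
      | succ n ih =>
        have := (hUg (n + 1)).fin i
        exact ih.trans_lt (Submodule.finrank_lt_finrank_of_lt (hlt n i))
    have h2 : finrank ℚ (U (finrank ℚ (P i) + 1) i) ≤ finrank ℚ (P i) :=
      Submodule.finrank_mono (hUP _ i)
    have h3 := h1 (finrank ℚ (P i) + 1)
    omega
  · intro j
    have h1 : (⨆ i : {i // i ≠ j}, P i) = ⨆ n, ⨆ i : {i // i ≠ j}, U n i := by
      simp only [hP]
      rw [iSup_comm]
    rw [h1]
    intro n hn M hM hdet
    obtain ⟨N, hN⟩ := mem_chain (fun n => ⨆ i : {i // i ≠ j}, U n i)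
      (fun a b hab => iSup_mono fun i => hmono _ hab) M hM
    exact (hUg N).zero j n hn M hN hdet

end Pool.Agent.Helper71.MLog
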